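import Pool.Agent.Lib_helper27.V.Los

/-!
# Linking formulas over the extension and over names

-/

set_option linter.unusedSectionVars false
set_option linter.unusedTactic false
set_option linter.unreachableTactic false

namespace Pool.Agent.Lib_helper27.V

universe u

open Fml


section

variable {P : Type u} [Preorder P] [Nonempty P]

namespace Lk

theorem or {φ φ' : Fml (Ext P)} {ψ ψ' : Fml (Name P)} (h : Lk φ ψ) (h' : Lk φ' ψ') :
    Lk (Fml.or φ φ') (Fml.or ψ ψ') := (h.neg.and h'.neg).neg

theorem imp {φ φ' : Fml (Ext P)} {ψ ψ' : Fml (Name P)} (h : Lk φ ψ) (h' : Lk φ' ψ') :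
    Lk (Fml.imp φ φ') (Fml.imp ψ ψ') := (h.and h'.neg).neg

theorem iff {φ φ' : Fml (Ext P)} {ψ ψ' : Fml (Name P)} (h : Lk φ ψ) (h' : Lk φ' ψ') :
    Lk (Fml.iff φ φ') (Fml.iff ψ ψ') := (h.imp h').and (h'.imp h)

theorem ex {φ : Ext P → Fml (Ext P)} {ψ : Name P → Fml (Name P)} (h : ∀ t, Lk (φ (π t)) (ψ t))
    (hc : Congr1 ψ) : Lk (Fml.ex φ) (Fml.ex ψ) :=
  (Lk.all (fun t => (h t).neg) fun p x y hxy => .neg (hc p x y hxy)).neg

theorem ball {a : Name P} {φ : Ext P → Fml (Ext P)} {ψ : Name P → Fml (Name P)}
    (h : ∀ t, Lk (φ (π t)) (ψ t)) (hc : Congr1 ψ) : Lk (Fml.ball (π a) φ) (Fml.ball a ψ) :=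
  Lk.all (fun t => (Lk.mem t a).imp (h t)) fun p x y hxy =>
    .imp (.mem hxy (feq_refl a p)) (hc p x y hxy)

theorem bex {a : Name P} {φ : Ext P → Fml (Ext P)} {ψ : Name P → Fml (Name P)}
    (h : ∀ t, Lk (φ (π t)) (ψ t)) (hc : Congr1 ψ) : Lk (Fml.bex (π a) φ) (Fml.bex a ψ) :=
  Lk.ex (fun t => (Lk.mem t a).and (h t)) fun p x y hxy =>
    .and (.mem hxy (feq_refl a p)) (hc p x y hxy)

end Lk

end


section

variable {P : Type u} [Preorder P] [Nonempty P]

namespace Lk

theorem isSubset (a b : Name P) : Lk (Fml.isSubset (π a) (π b)) (Fml.isSubset a b) := by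
  unfold Fml.isSubset
  repeat' first
    | with_reducible exact Lk.mem _ _
    | with_reducible exact Lk.eq _ _
    | with_reducible refine Lk.ball (fun _ => ?_) ?_
    | with_reducible refine Lk.bex (fun _ => ?_) ?_
    | with_reducible refine Lk.iff ?_ ?_
    | with_reducible refine Lk.imp ?_ ?_
    | with_reducible refine Lk.or ?_ ?_
    | with_reducible refine Lk.ex (fun _ => ?_) ?_
    | with_reducible refine Lk.and ?_ ?_
    | with_reducible refine Lk.neg ?_
    | with_reducible refine Lk.all (fun _ => ?_) ?_
  all_goals
    intro _ _ _ _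
    repeat' first
      | assumption
      | exact feq_refl _ _
      | with_reducible refine Fml.Rel.isUPair (fun x => feq_refl x _) ?_ ?_ ?_
      | with_reducible refine Fml.Rel.isOPair (fun x => feq_refl x _) ?_ ?_ ?_
      | with_reducible refine Fml.Rel.app (fun x => feq_refl x _) ?_ ?_ ?_
      | with_reducible refine Fml.Rel.isFunc (fun x => feq_refl x _) ?_ ?_ ?_
      | with_reducible refine Fml.Rel.isInj (fun x => feq_refl x _) ?_ ?_ ?_
      | with_reducible refine Fml.Rel.isBij (fun x => feq_refl x _) ?_ ?_ ?_
      | with_reducible refine Fml.Rel.isHartogs (fun x => feq_refl x _) ?_ ?_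
      | with_reducible refine Fml.Rel.isSubset (fun x => feq_refl x _) ?_ ?_
      | with_reducible refine Fml.Rel.isOrd (fun x => feq_refl x _) ?_
      | with_reducible refine Fml.Rel.isOmega (fun x => feq_refl x _) ?_
      | with_reducible refine Fml.Rel.ball (fun x => feq_refl x _) ?_ (fun _ => ?_)
      | with_reducible refine Fml.Rel.bex (fun x => feq_refl x _) ?_ (fun _ => ?_)
      | with_reducible refine Fml.Rel.iff ?_ ?_
      | with_reducible refine Fml.Rel.imp ?_ ?_
      | with_reducible refine Fml.Rel.or ?_ ?_
      | with_reducible refine Fml.Rel.ex (fun _ => ?_)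
      | with_reducible refine Fml.Rel.and ?_ ?_
      | with_reducible refine Fml.Rel.neg ?_
      | with_reducible refine Fml.Rel.all (fun _ => ?_)
      | with_reducible refine Fml.Rel.mem ?_ ?_
      | with_reducible refine Fml.Rel.eq ?_ ?_

theorem isUPair (a b c : Name P) : Lk (Fml.isUPair (π a) (π b) (π c)) (Fml.isUPair a b c) := by
  unfold Fml.isUPair
  repeat' first
    | with_reducible exact Lk.mem _ _
    | with_reducible exact Lk.eq _ _
    | with_reducible refine Lk.ball (fun _ => ?_) ?_
    | with_reducible refine Lk.bex (fun _ => ?_) ?_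
    | with_reducible refine Lk.iff ?_ ?_
    | with_reducible refine Lk.imp ?_ ?_
    | with_reducible refine Lk.or ?_ ?_
    | with_reducible refine Lk.ex (fun _ => ?_) ?_
    | with_reducible refine Lk.and ?_ ?_
    | with_reducible refine Lk.neg ?_
    | with_reducible refine Lk.all (fun _ => ?_) ?_
  all_goals
    intro _ _ _ _
    repeat' first
      | assumption
      | exact feq_refl _ _
      | with_reducible refine Fml.Rel.isUPair (fun x => feq_refl x _) ?_ ?_ ?_
      | with_reducible refine Fml.Rel.isOPair (fun x => feq_refl x _) ?_ ?_ ?_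
      | with_reducible refine Fml.Rel.app (fun x => feq_refl x _) ?_ ?_ ?_
      | with_reducible refine Fml.Rel.isFunc (fun x => feq_refl x _) ?_ ?_ ?_
      | with_reducible refine Fml.Rel.isInj (fun x => feq_refl x _) ?_ ?_ ?_
      | with_reducible refine Fml.Rel.isBij (fun x => feq_refl x _) ?_ ?_ ?_
      | with_reducible refine Fml.Rel.isHartogs (fun x => feq_refl x _) ?_ ?_
      | with_reducible refine Fml.Rel.isSubset (fun x => feq_refl x _) ?_ ?_
      | with_reducible refine Fml.Rel.isOrd (fun x => feq_refl x _) ?_
      | with_reducible refine Fml.Rel.isOmega (fun x => feq_refl x _) ?_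
      | with_reducible refine Fml.Rel.ball (fun x => feq_refl x _) ?_ (fun _ => ?_)
      | with_reducible refine Fml.Rel.bex (fun x => feq_refl x _) ?_ (fun _ => ?_)
      | with_reducible refine Fml.Rel.iff ?_ ?_
      | with_reducible refine Fml.Rel.imp ?_ ?_
      | with_reducible refine Fml.Rel.or ?_ ?_
      | with_reducible refine Fml.Rel.ex (fun _ => ?_)
      | with_reducible refine Fml.Rel.and ?_ ?_
      | with_reducible refine Fml.Rel.neg ?_
      | with_reducible refine Fml.Rel.all (fun _ => ?_)
      | with_reducible refine Fml.Rel.mem ?_ ?_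
      | with_reducible refine Fml.Rel.eq ?_ ?_

end Lk

end


section

variable {P : Type u} [Preorder P] [Nonempty P]

namespace Lk

theorem isOPair (a b c : Name P) : Lk (Fml.isOPair (π a) (π b) (π c)) (Fml.isOPair a b c) := by
  unfold Fml.isOPair
  repeat' first
    | with_reducible exact Lk.isUPair _ _ _
    | with_reducible exact Lk.isSubset _ _
    | with_reducible exact Lk.mem _ _
    | with_reducible exact Lk.eq _ _
    | with_reducible refine Lk.ball (fun _ => ?_) ?_
    | with_reducible refine Lk.bex (fun _ => ?_) ?_
    | with_reducible refine Lk.iff ?_ ?_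
    | with_reducible refine Lk.imp ?_ ?_
    | with_reducible refine Lk.or ?_ ?_
    | with_reducible refine Lk.ex (fun _ => ?_) ?_
    | with_reducible refine Lk.and ?_ ?_
    | with_reducible refine Lk.neg ?_
    | with_reducible refine Lk.all (fun _ => ?_) ?_
  all_goals
    intro _ _ _ _
    repeat' first
      | assumption
      | exact feq_refl _ _
      | with_reducible refine Fml.Rel.isUPair (fun x => feq_refl x _) ?_ ?_ ?_
      | with_reducible refine Fml.Rel.isOPair (fun x => feq_refl x _) ?_ ?_ ?_
      | with_reducible refine Fml.Rel.app (fun x => feq_refl x _) ?_ ?_ ?_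
      | with_reducible refine Fml.Rel.isFunc (fun x => feq_refl x _) ?_ ?_ ?_
      | with_reducible refine Fml.Rel.isInj (fun x => feq_refl x _) ?_ ?_ ?_
      | with_reducible refine Fml.Rel.isBij (fun x => feq_refl x _) ?_ ?_ ?_
      | with_reducible refine Fml.Rel.isHartogs (fun x => feq_refl x _) ?_ ?_
      | with_reducible refine Fml.Rel.isSubset (fun x => feq_refl x _) ?_ ?_
      | with_reducible refine Fml.Rel.isOrd (fun x => feq_refl x _) ?_
      | with_reducible refine Fml.Rel.isOmega (fun x => feq_refl x _) ?_
      | with_reducible refine Fml.Rel.ball (fun x => feq_refl x _) ?_ (fun _ => ?_)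
      | with_reducible refine Fml.Rel.bex (fun x => feq_refl x _) ?_ (fun _ => ?_)
      | with_reducible refine Fml.Rel.iff ?_ ?_
      | with_reducible refine Fml.Rel.imp ?_ ?_
      | with_reducible refine Fml.Rel.or ?_ ?_
      | with_reducible refine Fml.Rel.ex (fun _ => ?_)
      | with_reducible refine Fml.Rel.and ?_ ?_
      | with_reducible refine Fml.Rel.neg ?_
      | with_reducible refine Fml.Rel.all (fun _ => ?_)
      | with_reducible refine Fml.Rel.mem ?_ ?_
      | with_reducible refine Fml.Rel.eq ?_ ?_

end Lk

end


section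

variable {P : Type u} [Preorder P] [Nonempty P]

namespace Lk

theorem app (a b c : Name P) : Lk (Fml.app (π a) (π b) (π c)) (Fml.app a b c) := by
  unfold Fml.app
  repeat' first
    | with_reducible exact Lk.isOPair _ _ _
    | with_reducible exact Lk.isUPair _ _ _
    | with_reducible exact Lk.isSubset _ _
    | with_reducible exact Lk.mem _ _
    | with_reducible exact Lk.eq _ _
    | with_reducible refine Lk.ball (fun _ => ?_) ?_
    | with_reducible refine Lk.bex (fun _ => ?_) ?_
    | with_reducible refine Lk.iff ?_ ?_
    | with_reducible refine Lk.imp ?_ ?_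
    | with_reducible refine Lk.or ?_ ?_
    | with_reducible refine Lk.ex (fun _ => ?_) ?_
    | with_reducible refine Lk.and ?_ ?_
    | with_reducible refine Lk.neg ?_
    | with_reducible refine Lk.all (fun _ => ?_) ?_
  all_goals
    intro _ _ _ _
    repeat' first
      | assumption
      | exact feq_refl _ _
      | with_reducible refine Fml.Rel.isUPair (fun x => feq_refl x _) ?_ ?_ ?_
      | with_reducible refine Fml.Rel.isOPair (fun x => feq_refl x _) ?_ ?_ ?_
      | with_reducible refine Fml.Rel.app (fun x => feq_refl x _) ?_ ?_ ?_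
      | with_reducible refine Fml.Rel.isFunc (fun x => feq_refl x _) ?_ ?_ ?_
      | with_reducible refine Fml.Rel.isInj (fun x => feq_refl x _) ?_ ?_ ?_
      | with_reducible refine Fml.Rel.isBij (fun x => feq_refl x _) ?_ ?_ ?_
      | with_reducible refine Fml.Rel.isHartogs (fun x => feq_refl x _) ?_ ?_
      | with_reducible refine Fml.Rel.isSubset (fun x => feq_refl x _) ?_ ?_
      | with_reducible refine Fml.Rel.isOrd (fun x => feq_refl x _) ?_
      | with_reducible refine Fml.Rel.isOmega (fun x => feq_refl x _) ?_
      | with_reducible refine Fml.Rel.ball (fun x => feq_refl x _) ?_ (fun _ => ?_)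
      | with_reducible refine Fml.Rel.bex (fun x => feq_refl x _) ?_ (fun _ => ?_)
      | with_reducible refine Fml.Rel.iff ?_ ?_
      | with_reducible refine Fml.Rel.imp ?_ ?_
      | with_reducible refine Fml.Rel.or ?_ ?_
      | with_reducible refine Fml.Rel.ex (fun _ => ?_)
      | with_reducible refine Fml.Rel.and ?_ ?_
      | with_reducible refine Fml.Rel.neg ?_
      | with_reducible refine Fml.Rel.all (fun _ => ?_)
      | with_reducible refine Fml.Rel.mem ?_ ?_
      | with_reducible refine Fml.Rel.eq ?_ ?_

theorem isOrd (a : Name P) : Lk (Fml.isOrd (π a)) (Fml.isOrd a) := by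
  unfold Fml.isOrd
  repeat' first
    | with_reducible exact Lk.isOPair _ _ _
    | with_reducible exact Lk.isUPair _ _ _
    | with_reducible exact Lk.isSubset _ _
    | with_reducible exact Lk.mem _ _
    | with_reducible exact Lk.eq _ _
    | with_reducible refine Lk.ball (fun _ => ?_) ?_
    | with_reducible refine Lk.bex (fun _ => ?_) ?_
    | with_reducible refine Lk.iff ?_ ?_
    | with_reducible refine Lk.imp ?_ ?_
    | with_reducible refine Lk.or ?_ ?_
    | with_reducible refine Lk.ex (fun _ => ?_) ?_
    | with_reducible refine Lk.and ?_ ?_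
    | with_reducible refine Lk.neg ?_
    | with_reducible refine Lk.all (fun _ => ?_) ?_
  all_goals
    intro _ _ _ _
    repeat' first
      | assumption
      | exact feq_refl _ _
      | with_reducible refine Fml.Rel.isUPair (fun x => feq_refl x _) ?_ ?_ ?_
      | with_reducible refine Fml.Rel.isOPair (fun x => feq_refl x _) ?_ ?_ ?_
      | with_reducible refine Fml.Rel.app (fun x => feq_refl x _) ?_ ?_ ?_
      | with_reducible refine Fml.Rel.isFunc (fun x => feq_refl x _) ?_ ?_ ?_
      | with_reducible refine Fml.Rel.isInj (fun x => feq_refl x _) ?_ ?_ ?_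
      | with_reducible refine Fml.Rel.isBij (fun x => feq_refl x _) ?_ ?_ ?_
      | with_reducible refine Fml.Rel.isHartogs (fun x => feq_refl x _) ?_ ?_
      | with_reducible refine Fml.Rel.isSubset (fun x => feq_refl x _) ?_ ?_
      | with_reducible refine Fml.Rel.isOrd (fun x => feq_refl x _) ?_
      | with_reducible refine Fml.Rel.isOmega (fun x => feq_refl x _) ?_
      | with_reducible refine Fml.Rel.ball (fun x => feq_refl x _) ?_ (fun _ => ?_)
      | with_reducible refine Fml.Rel.bex (fun x => feq_refl x _) ?_ (fun _ => ?_)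
      | with_reducible refine Fml.Rel.iff ?_ ?_
      | with_reducible refine Fml.Rel.imp ?_ ?_
      | with_reducible refine Fml.Rel.or ?_ ?_
      | with_reducible refine Fml.Rel.ex (fun _ => ?_)
      | with_reducible refine Fml.Rel.and ?_ ?_
      | with_reducible refine Fml.Rel.neg ?_
      | with_reducible refine Fml.Rel.all (fun _ => ?_)
      | with_reducible refine Fml.Rel.mem ?_ ?_
      | with_reducible refine Fml.Rel.eq ?_ ?_

end Lk

end


section

variable {P : Type u} [Preorder P] [Nonempty P]

namespace Lk

theorem isFunc (a b c : Name P) : Lk (Fml.isFunc (π a) (π b) (π c)) (Fml.isFunc a b c) := by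
  unfold Fml.isFunc
  repeat' first
    | with_reducible exact Lk.app _ _ _
    | with_reducible exact Lk.isOPair _ _ _
    | with_reducible exact Lk.isUPair _ _ _
    | with_reducible exact Lk.isSubset _ _
    | with_reducible exact Lk.isOrd _
    | with_reducible exact Lk.mem _ _
    | with_reducible exact Lk.eq _ _
    | with_reducible refine Lk.ball (fun _ => ?_) ?_
    | with_reducible refine Lk.bex (fun _ => ?_) ?_
    | with_reducible refine Lk.iff ?_ ?_
    | with_reducible refine Lk.imp ?_ ?_
    | with_reducible refine Lk.or ?_ ?_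
    | with_reducible refine Lk.ex (fun _ => ?_) ?_
    | with_reducible refine Lk.and ?_ ?_
    | with_reducible refine Lk.neg ?_
    | with_reducible refine Lk.all (fun _ => ?_) ?_
  all_goals
    intro _ _ _ _
    repeat' first
      | assumption
      | exact feq_refl _ _
      | with_reducible refine Fml.Rel.isUPair (fun x => feq_refl x _) ?_ ?_ ?_
      | with_reducible refine Fml.Rel.isOPair (fun x => feq_refl x _) ?_ ?_ ?_
      | with_reducible refine Fml.Rel.app (fun x => feq_refl x _) ?_ ?_ ?_
      | with_reducible refine Fml.Rel.isFunc (fun x => feq_refl x _) ?_ ?_ ?_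
      | with_reducible refine Fml.Rel.isInj (fun x => feq_refl x _) ?_ ?_ ?_
      | with_reducible refine Fml.Rel.isBij (fun x => feq_refl x _) ?_ ?_ ?_
      | with_reducible refine Fml.Rel.isHartogs (fun x => feq_refl x _) ?_ ?_
      | with_reducible refine Fml.Rel.isSubset (fun x => feq_refl x _) ?_ ?_
      | with_reducible refine Fml.Rel.isOrd (fun x => feq_refl x _) ?_
      | with_reducible refine Fml.Rel.isOmega (fun x => feq_refl x _) ?_
      | with_reducible refine Fml.Rel.ball (fun x => feq_refl x _) ?_ (fun _ => ?_)
      | with_reducible refine Fml.Rel.bex (fun x => feq_refl x _) ?_ (fun _ => ?_)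
      | with_reducible refine Fml.Rel.iff ?_ ?_
      | with_reducible refine Fml.Rel.imp ?_ ?_
      | with_reducible refine Fml.Rel.or ?_ ?_
      | with_reducible refine Fml.Rel.ex (fun _ => ?_)
      | with_reducible refine Fml.Rel.and ?_ ?_
      | with_reducible refine Fml.Rel.neg ?_
      | with_reducible refine Fml.Rel.all (fun _ => ?_)
      | with_reducible refine Fml.Rel.mem ?_ ?_
      | with_reducible refine Fml.Rel.eq ?_ ?_

theorem isInj (a b c : Name P) : Lk (Fml.isInj (π a) (π b) (π c)) (Fml.isInj a b c) := by
  unfold Fml.isInj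
  refine (isFunc a b c).and ?_
  repeat' first
    | with_reducible exact Lk.app _ _ _
    | with_reducible exact Lk.isOPair _ _ _
    | with_reducible exact Lk.isUPair _ _ _
    | with_reducible exact Lk.isSubset _ _
    | with_reducible exact Lk.isOrd _
    | with_reducible exact Lk.mem _ _
    | with_reducible exact Lk.eq _ _
    | with_reducible refine Lk.ball (fun _ => ?_) ?_
    | with_reducible refine Lk.bex (fun _ => ?_) ?_
    | with_reducible refine Lk.iff ?_ ?_
    | with_reducible refine Lk.imp ?_ ?_
    | with_reducible refine Lk.or ?_ ?_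
    | with_reducible refine Lk.ex (fun _ => ?_) ?_
    | with_reducible refine Lk.and ?_ ?_
    | with_reducible refine Lk.neg ?_
    | with_reducible refine Lk.all (fun _ => ?_) ?_
  all_goals
    intro _ _ _ _
    repeat' first
      | assumption
      | exact feq_refl _ _
      | with_reducible refine Fml.Rel.isUPair (fun x => feq_refl x _) ?_ ?_ ?_
      | with_reducible refine Fml.Rel.isOPair (fun x => feq_refl x _) ?_ ?_ ?_
      | with_reducible refine Fml.Rel.app (fun x => feq_refl x _) ?_ ?_ ?_
      | with_reducible refine Fml.Rel.isFunc (fun x => feq_refl x _) ?_ ?_ ?_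
      | with_reducible refine Fml.Rel.isInj (fun x => feq_refl x _) ?_ ?_ ?_
      | with_reducible refine Fml.Rel.isBij (fun x => feq_refl x _) ?_ ?_ ?_
      | with_reducible refine Fml.Rel.isHartogs (fun x => feq_refl x _) ?_ ?_
      | with_reducible refine Fml.Rel.isSubset (fun x => feq_refl x _) ?_ ?_
      | with_reducible refine Fml.Rel.isOrd (fun x => feq_refl x _) ?_
      | with_reducible refine Fml.Rel.isOmega (fun x => feq_refl x _) ?_
      | with_reducible refine Fml.Rel.ball (fun x => feq_refl x _) ?_ (fun _ => ?_)
      | with_reducible refine Fml.Rel.bex (fun x => feq_refl x _) ?_ (fun _ => ?_)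
      | with_reducible refine Fml.Rel.iff ?_ ?_
      | with_reducible refine Fml.Rel.imp ?_ ?_
      | with_reducible refine Fml.Rel.or ?_ ?_
      | with_reducible refine Fml.Rel.ex (fun _ => ?_)
      | with_reducible refine Fml.Rel.and ?_ ?_
      | with_reducible refine Fml.Rel.neg ?_
      | with_reducible refine Fml.Rel.all (fun _ => ?_)
      | with_reducible refine Fml.Rel.mem ?_ ?_
      | with_reducible refine Fml.Rel.eq ?_ ?_

theorem isBij (a b c : Name P) : Lk (Fml.isBij (π a) (π b) (π c)) (Fml.isBij a b c) := by
  unfold Fml.isBij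
  refine (isInj a b c).and ?_
  repeat' first
    | with_reducible exact Lk.app _ _ _
    | with_reducible exact Lk.isOPair _ _ _
    | with_reducible exact Lk.isUPair _ _ _
    | with_reducible exact Lk.isSubset _ _
    | with_reducible exact Lk.isOrd _
    | with_reducible exact Lk.mem _ _
    | with_reducible exact Lk.eq _ _
    | with_reducible refine Lk.ball (fun _ => ?_) ?_
    | with_reducible refine Lk.bex (fun _ => ?_) ?_
    | with_reducible refine Lk.iff ?_ ?_
    | with_reducible refine Lk.imp ?_ ?_
    | with_reducible refine Lk.or ?_ ?_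
    | with_reducible refine Lk.ex (fun _ => ?_) ?_
    | with_reducible refine Lk.and ?_ ?_
    | with_reducible refine Lk.neg ?_
    | with_reducible refine Lk.all (fun _ => ?_) ?_
  all_goals
    intro _ _ _ _
    repeat' first
      | assumption
      | exact feq_refl _ _
      | with_reducible refine Fml.Rel.isUPair (fun x => feq_refl x _) ?_ ?_ ?_
      | with_reducible refine Fml.Rel.isOPair (fun x => feq_refl x _) ?_ ?_ ?_
      | with_reducible refine Fml.Rel.app (fun x => feq_refl x _) ?_ ?_ ?_
      | with_reducible refine Fml.Rel.isFunc (fun x => feq_refl x _) ?_ ?_ ?_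
      | with_reducible refine Fml.Rel.isInj (fun x => feq_refl x _) ?_ ?_ ?_
      | with_reducible refine Fml.Rel.isBij (fun x => feq_refl x _) ?_ ?_ ?_
      | with_reducible refine Fml.Rel.isHartogs (fun x => feq_refl x _) ?_ ?_
      | with_reducible refine Fml.Rel.isSubset (fun x => feq_refl x _) ?_ ?_
      | with_reducible refine Fml.Rel.isOrd (fun x => feq_refl x _) ?_
      | with_reducible refine Fml.Rel.isOmega (fun x => feq_refl x _) ?_
      | with_reducible refine Fml.Rel.ball (fun x => feq_refl x _) ?_ (fun _ => ?_)
      | with_reducible refine Fml.Rel.bex (fun x => feq_refl x _) ?_ (fun _ => ?_)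
      | with_reducible refine Fml.Rel.iff ?_ ?_
      | with_reducible refine Fml.Rel.imp ?_ ?_
      | with_reducible refine Fml.Rel.or ?_ ?_
      | with_reducible refine Fml.Rel.ex (fun _ => ?_)
      | with_reducible refine Fml.Rel.and ?_ ?_
      | with_reducible refine Fml.Rel.neg ?_
      | with_reducible refine Fml.Rel.all (fun _ => ?_)
      | with_reducible refine Fml.Rel.mem ?_ ?_
      | with_reducible refine Fml.Rel.eq ?_ ?_

theorem isOmega (a : Name P) : Lk (Fml.isOmega (π a)) (Fml.isOmega a) := by
  unfold Fml.isOmega
  repeat' first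
    | with_reducible exact Lk.app _ _ _
    | with_reducible exact Lk.isOPair _ _ _
    | with_reducible exact Lk.isUPair _ _ _
    | with_reducible exact Lk.isSubset _ _
    | with_reducible exact Lk.isOrd _
    | with_reducible exact Lk.mem _ _
    | with_reducible exact Lk.eq _ _
    | with_reducible refine Lk.ball (fun _ => ?_) ?_
    | with_reducible refine Lk.bex (fun _ => ?_) ?_
    | with_reducible refine Lk.iff ?_ ?_
    | with_reducible refine Lk.imp ?_ ?_
    | with_reducible refine Lk.or ?_ ?_
    | with_reducible refine Lk.ex (fun _ => ?_) ?_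
    | with_reducible refine Lk.and ?_ ?_
    | with_reducible refine Lk.neg ?_
    | with_reducible refine Lk.all (fun _ => ?_) ?_
  all_goals
    intro _ _ _ _
    repeat' first
      | assumption
      | exact feq_refl _ _
      | with_reducible refine Fml.Rel.isUPair (fun x => feq_refl x _) ?_ ?_ ?_
      | with_reducible refine Fml.Rel.isOPair (fun x => feq_refl x _) ?_ ?_ ?_
      | with_reducible refine Fml.Rel.app (fun x => feq_refl x _) ?_ ?_ ?_
      | with_reducible refine Fml.Rel.isFunc (fun x => feq_refl x _) ?_ ?_ ?_
      | with_reducible refine Fml.Rel.isInj (fun x => feq_refl x _) ?_ ?_ ?_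
      | with_reducible refine Fml.Rel.isBij (fun x => feq_refl x _) ?_ ?_ ?_
      | with_reducible refine Fml.Rel.isHartogs (fun x => feq_refl x _) ?_ ?_
      | with_reducible refine Fml.Rel.isSubset (fun x => feq_refl x _) ?_ ?_
      | with_reducible refine Fml.Rel.isOrd (fun x => feq_refl x _) ?_
      | with_reducible refine Fml.Rel.isOmega (fun x => feq_refl x _) ?_
      | with_reducible refine Fml.Rel.ball (fun x => feq_refl x _) ?_ (fun _ => ?_)
      | with_reducible refine Fml.Rel.bex (fun x => feq_refl x _) ?_ (fun _ => ?_)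
      | with_reducible refine Fml.Rel.iff ?_ ?_
      | with_reducible refine Fml.Rel.imp ?_ ?_
      | with_reducible refine Fml.Rel.or ?_ ?_
      | with_reducible refine Fml.Rel.ex (fun _ => ?_)
      | with_reducible refine Fml.Rel.and ?_ ?_
      | with_reducible refine Fml.Rel.neg ?_
      | with_reducible refine Fml.Rel.all (fun _ => ?_)
      | with_reducible refine Fml.Rel.mem ?_ ?_
      | with_reducible refine Fml.Rel.eq ?_ ?_

end Lk

end


section

variable {P : Type u} [Preorder P] [Nonempty P]

theorem Lk.isHartogs (a b : Name P) : Lk (Fml.isHartogs (π a) (π b)) (Fml.isHartogs a b) := by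
  unfold Fml.isHartogs
  repeat' first
    | with_reducible exact Lk.app _ _ _
    | with_reducible exact Lk.isFunc _ _ _
    | with_reducible exact Lk.isInj _ _ _
    | with_reducible exact Lk.isBij _ _ _
    | with_reducible exact Lk.isOPair _ _ _
    | with_reducible exact Lk.isUPair _ _ _
    | with_reducible exact Lk.isSubset _ _
    | with_reducible exact Lk.isOrd _
    | with_reducible exact Lk.isOmega _
    | with_reducible exact Lk.mem _ _
    | with_reducible exact Lk.eq _ _
    | with_reducible refine Lk.ball (fun _ => ?_) ?_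
    | with_reducible refine Lk.bex (fun _ => ?_) ?_
    | with_reducible refine Lk.iff ?_ ?_
    | with_reducible refine Lk.imp ?_ ?_
    | with_reducible refine Lk.or ?_ ?_
    | with_reducible refine Lk.ex (fun _ => ?_) ?_
    | with_reducible refine Lk.and ?_ ?_
    | with_reducible refine Lk.neg ?_
    | with_reducible refine Lk.all (fun _ => ?_) ?_
  all_goals
    intro _ _ _ _
    repeat' first
      | assumption
      | exact feq_refl _ _
      | with_reducible refine Fml.Rel.isUPair (fun x => feq_refl x _) ?_ ?_ ?_
      | with_reducible refine Fml.Rel.isOPair (fun x => feq_refl x _) ?_ ?_ ?_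
      | with_reducible refine Fml.Rel.app (fun x => feq_refl x _) ?_ ?_ ?_
      | with_reducible refine Fml.Rel.isFunc (fun x => feq_refl x _) ?_ ?_ ?_
      | with_reducible refine Fml.Rel.isInj (fun x => feq_refl x _) ?_ ?_ ?_
      | with_reducible refine Fml.Rel.isBij (fun x => feq_refl x _) ?_ ?_ ?_
      | with_reducible refine Fml.Rel.isHartogs (fun x => feq_refl x _) ?_ ?_
      | with_reducible refine Fml.Rel.isSubset (fun x => feq_refl x _) ?_ ?_
      | with_reducible refine Fml.Rel.isOrd (fun x => feq_refl x _) ?_
      | with_reducible refine Fml.Rel.isOmega (fun x => feq_refl x _) ?_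
      | with_reducible refine Fml.Rel.ball (fun x => feq_refl x _) ?_ (fun _ => ?_)
      | with_reducible refine Fml.Rel.bex (fun x => feq_refl x _) ?_ (fun _ => ?_)
      | with_reducible refine Fml.Rel.iff ?_ ?_
      | with_reducible refine Fml.Rel.imp ?_ ?_
      | with_reducible refine Fml.Rel.or ?_ ?_
      | with_reducible refine Fml.Rel.ex (fun _ => ?_)
      | with_reducible refine Fml.Rel.and ?_ ?_
      | with_reducible refine Fml.Rel.neg ?_
      | with_reducible refine Fml.Rel.all (fun _ => ?_)
      | with_reducible refine Fml.Rel.mem ?_ ?_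
      | with_reducible refine Fml.Rel.eq ?_ ?_

end

end Pool.Agent.Lib_helper27.V
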