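import Pool.Agent.Lib_helper27.V.Zfc

/-!
# Pairs, functions and check names of ordinals
-/

set_option linter.unusedSectionVars false

namespace Pool.Agent.Lib_helper27.V

universe u

open Fml

section

variable {P : Type u} [Preorder P]

theorem Loc.and' {p : P} {Q R : P → Prop} (h : Loc p Q) (h' : Loc p R)
    (hQ : ∀ q r, r ≤ q → Q q → Q r) : Loc p fun r => Q r ∧ R r := by
  refine h.bind fun q hq h1 => (h'.mono hq).imp fun r hr h2 => ⟨hQ q r hr h1, h2⟩

theorem fmem_pair_left (a b : Name P) (p : P) : fmem a (mkPair a b) p :=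
  fmem_mkPair.2 (forces_or.2 (Loc.pure fun _ _ => Or.inl (feq_refl _ _)))

theorem fmem_pair_right (a b : Name P) (p : P) : fmem b (mkPair a b) p :=
  fmem_mkPair.2 (forces_or.2 (Loc.pure fun _ _ => Or.inr (feq_refl _ _)))

theorem fmem_single {a x : Name P} {p : P} : fmem x (mkPair a a) p ↔ feq x a p := by
  rw [fmem_mkPair, Fc, forces_or]
  constructor
  · intro h
    refine feq_dense (h.imp ?_)
    rintro r _ (h | h) <;> exact h
  · intro h
    exact Loc.pure fun q hq => Or.inl (feq_mono hq h)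

theorem fc_upair_iff {z a b : Name P} {p : P} : Fc p (isUPair z a b) ↔ feq z (mkPair a b) p := by
  constructor
  · intro h
    refine feq_ext fun w q hq => ?_
    rw [fmem_mkPair]
    exact (forces_iff nf_basic).1 (h w) q hq
  · intro h w
    refine (forces_iff nf_basic).2 fun q hq => ?_
    have h1 : fmem w z q ↔ fmem w (mkPair a b) q :=
      ⟨fmem_congr_right (feq_mono hq h), fmem_congr_right (feq_symm (feq_mono hq h))⟩
    exact h1.trans fmem_mkPair

/-- The name of `(a, b)`. -/
def mkOPair (a b : Name P) : Name P := mkPair (mkPair a a) (mkPair a b)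

theorem fc_opair_iff {z a b : Name P} {p : P} : Fc p (isOPair z a b) ↔ feq z (mkOPair a b) p := by
  have key : ∀ (w : Name P) (q : P), Fc q (Fml.or (isUPair w a a) (isUPair w a b)) ↔
      fmem w (mkOPair a b) q := by
    intro w q
    rw [mkOPair, fmem_mkPair, Fc, forces_or, Fc, forces_or]
    refine ⟨fun h => h.imp ?_, fun h => h.imp ?_⟩
    · rintro r _ (h | h)
      · exact Or.inl (fc_upair_iff.1 h)
      · exact Or.inr (fc_upair_iff.1 h)
    · rintro r _ (h | h)
      · exact Or.inl (fc_upair_iff.2 h)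
      · exact Or.inr (fc_upair_iff.2 h)
  constructor
  · intro h
    refine feq_ext fun w q hq => ?_
    rw [← key]
    exact (forces_iff nf_basic).1 (h w) q hq
  · intro h w
    refine (forces_iff nf_basic).2 fun q hq => ?_
    have h1 : fmem w z q ↔ fmem w (mkOPair a b) q :=
      ⟨fmem_congr_right (feq_mono hq h), fmem_congr_right (feq_symm (feq_mono hq h))⟩
    exact h1.trans (key w q).symm

theorem feq_pair_congr {a b a' b' : Name P} {p : P} (h : feq a a' p) (h' : feq b b' p) :
    feq (mkPair a b) (mkPair a' b') p := by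
  rw [← fc_upair_iff]
  exact (fc_congr (Fml.Rel.isUPair (fun x => feq_refl x p) (feq_refl _ p) h h') le_rfl).1
    (fc_upair_iff.2 (feq_refl _ _))

theorem feq_opair_congr {a b a' b' : Name P} {p : P} (h : feq a a' p) (h' : feq b b' p) :
    feq (mkOPair a b) (mkOPair a' b') p := feq_pair_congr (feq_pair_congr h h) (feq_pair_congr h h')

/-- the singleton `{x}` as an element of a pair -/
theorem upair_cases {x a b : Name P} {p : P} (h : fmem x (mkPair a b) p) :
    Loc p fun r => feq x a r ∨ feq x b r := by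
  rw [fmem_mkPair, Fc, forces_or] at h
  exact h

theorem opair_inj {a b a' b' : Name P} {p : P} (h : feq (mkOPair a b) (mkOPair a' b') p) :
    feq a a' p ∧ feq b b' p := by
  have h1 : feq a a' p := by
    refine feq_dense ?_
    refine (upair_cases (fmem_congr_right h (fmem_pair_left _ _ p))).imp ?_
    rintro r _ (h | h)
    · exact feq_symm (fmem_single.1 (fmem_congr_right (feq_symm h) (fmem_pair_left a' a' r)))
    · exact feq_symm (fmem_single.1 (fmem_congr_right (feq_symm h) (fmem_pair_left a' b' r)))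
  refine ⟨h1, feq_dense ?_⟩
  refine (upair_cases (fmem_congr_right h (fmem_pair_right _ _ p))).bind ?_
  rintro q hq (h2 | h2)
  · have hb : feq b a' q := fmem_single.1 (fmem_congr_right h2 (fmem_pair_right a b q))
    refine (upair_cases (fmem_congr_right (feq_symm (feq_mono hq h)) (fmem_pair_right _ _ q))).bind ?_
    rintro r hr (h3 | h3)
    · have hb' : feq b' a r := fmem_single.1 (fmem_congr_right h3 (fmem_pair_right a' b' r))
      refine Loc.pure fun s hs => ?_
      refine feq_mono hs (feq_trans (feq_mono hr hb) (feq_trans (feq_symm (feq_mono (hr.trans hq) h1))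
        (feq_symm hb')))
    · have hb' : feq b' a' r := by
        have := fmem_congr_right h3 (fmem_pair_right a' b' r)
        exact fmem_single.1 (fmem_congr_right (feq_mono hr h2) this)
      exact Loc.pure fun s hs => feq_mono hs (feq_trans (feq_mono hr hb) (feq_symm hb'))
  · refine (upair_cases (fmem_congr_right h2 (fmem_pair_right _ _ q))).bind ?_
    rintro r hr (h3 | h3)
    · refine (upair_cases (fmem_congr_right (feq_symm (feq_mono hr h2))
        (fmem_pair_right _ _ r))).imp ?_
      rintro s hs (h4 | h4)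
      · exact feq_trans (feq_mono hs h3)
          (feq_trans (feq_symm (feq_mono (hs.trans (hr.trans hq)) h1)) (feq_symm h4))
      · exact feq_symm h4
    · exact Loc.pure fun s hs => feq_mono hs h3

/-- A name for a function (or relation) given by pairs of names. -/
def mkFn (ι : Type u) (d v : ι → Name P) (Q : ι → P → Prop) : Name P :=
  mkQ ι (fun i => mkOPair (d i) (v i)) Q

theorem fc_app {ι : Type u} {d v : ι → Name P} {Q : ι → P → Prop} (hQ : Down Q) {x y : Name P}
    {p : P} : Fc p (app (mkFn ι d v Q) x y) ↔ Loc p fun r => ∃ i, Q i r ∧ feq x (d i) r ∧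
      feq y (v i) r := by
  rw [app, Fc, forces_bex]
  constructor
  · intro h
    refine h.bind ?_
    rintro q _ ⟨z, hz, hz'⟩
    refine ((fmem_mkQ hQ).1 hz).imp ?_
    rintro r hr ⟨i, hi, he⟩
    have h1 : feq z (mkOPair x y) r := feq_mono hr (fc_opair_iff.1 hz')
    have h2 := opair_inj (feq_trans (feq_symm h1) he)
    exact ⟨i, hi, h2⟩
  · intro h
    refine h.imp ?_
    rintro r _ ⟨i, hi, hx, hy⟩
    refine ⟨mkOPair (d i) (v i), fmem_mkQ_of (x := fun i => mkOPair (d i) (v i)) hQ hi, ?_⟩
    exact fc_opair_iff.2 (feq_symm (feq_opair_congr hx hy))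

theorem fc_isFunc {ι : Type u} {d v : ι → Name P} {Q : ι → P → Prop} (hQ : Down Q) {a b : Name P}
    {p : P} (h1 : ∀ i r, r ≤ p → Q i r → fmem (d i) a r ∧ fmem (v i) b r)
    (h2 : ∀ x q, q ≤ p → fmem x a q → Loc q fun r => ∃ i, Q i r ∧ feq x (d i) r)
    (h3 : ∀ i j r, r ≤ p → Q i r → Q j r → feq (d i) (d j) r → feq (v i) (v j) r) :
    Fc p (isFunc (mkFn ι d v Q) a b) := by
  refine ⟨?_, ?_, ?_⟩
  · refine (forces_ball nf_basic).2 fun z q hq hz => ?_
    refine forces_bex.2 ?_
    refine ((fmem_mkQ hQ).1 hz).imp ?_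
    rintro r hr ⟨i, hi, he⟩
    obtain ⟨h4, h5⟩ := h1 i r (hr.trans hq) hi
    refine ⟨d i, h4, forces_bex.2 (Loc.pure fun s hs => ⟨v i, fmem_mono hs h5, ?_⟩)⟩
    exact fc_opair_iff.2 (feq_mono hs he)
  · refine (forces_ball nf_basic).2 fun x q hq hx => ?_
    refine forces_bex.2 ?_
    refine (h2 x q hq hx).imp ?_
    rintro r hr ⟨i, hi, he⟩
    refine ⟨v i, (h1 i r (hr.trans hq) hi).2, (fc_app hQ).2 (Loc.pure fun s hs => ?_)⟩
    exact ⟨i, hQ i r s hs hi, feq_mono hs he, feq_refl _ _⟩
  · intro x y y'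
    refine (forces_imp nf_basic).2 fun q hq h => ?_
    refine feq_dense ?_
    refine ((fc_app hQ).1 h.1).bind ?_
    rintro r hr ⟨i, hi, hx, hy⟩
    refine ((fc_app hQ).1 (Forces.mono nf_basic hr h.2)).imp ?_
    rintro s hs ⟨j, hj, hx', hy'⟩
    have h4 := h3 i j s (hs.trans (hr.trans hq)) (hQ i r s hs hi) hj
      (feq_trans (feq_symm (feq_mono hs hx)) hx')
    exact feq_trans (feq_mono hs hy) (feq_trans h4 (feq_symm hy'))

theorem fc_isInj {ι : Type u} {d v : ι → Name P} {Q : ι → P → Prop} (hQ : Down Q) {a b : Name P}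
    {p : P} (hf : Fc p (isFunc (mkFn ι d v Q) a b))
    (h3 : ∀ i j r, r ≤ p → Q i r → Q j r → feq (v i) (v j) r → feq (d i) (d j) r) :
    Fc p (isInj (mkFn ι d v Q) a b) := by
  refine ⟨hf, ?_⟩
  intro x y y'
  refine (forces_imp nf_basic).2 fun q hq h => ?_
  refine feq_dense ?_
  refine ((fc_app hQ).1 h.1).bind ?_
  rintro r hr ⟨i, hi, hx, hy⟩
  refine ((fc_app hQ).1 (Forces.mono nf_basic hr h.2)).imp ?_
  rintro s hs ⟨j, hj, hx', hy'⟩
  have h4 := h3 i j s (hs.trans (hr.trans hq)) (hQ i r s hs hi) hj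
    (feq_trans (feq_symm (feq_mono hs hy)) hy')
  exact feq_trans (feq_mono hs hx) (feq_trans h4 (feq_symm hx'))

theorem fc_isBij {ι : Type u} {d v : ι → Name P} {Q : ι → P → Prop} (hQ : Down Q) {a b : Name P}
    {p : P} (hf : Fc p (isInj (mkFn ι d v Q) a b))
    (h3 : ∀ y q, q ≤ p → fmem y b q → Loc q fun r => ∃ i, Q i r ∧ fmem (d i) a r ∧ feq y (v i) r) :
    Fc p (isBij (mkFn ι d v Q) a b) := by
  refine ⟨hf, ?_⟩
  refine (forces_ball nf_basic).2 fun y q hq hy => ?_
  refine forces_bex.2 ?_
  refine (h3 y q hq hy).imp ?_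
  rintro r hr ⟨i, hi, hd, he⟩
  refine ⟨d i, hd, (fc_app hQ).2 (Loc.pure fun s hs => ?_)⟩
  exact ⟨i, hQ i r s hs hi, feq_refl _ _, feq_mono hs he⟩

/-! ### using functions -/

theorem func_single {p : P} {f a b x y y' : Name P} (hf : Fc p (isFunc f a b))
    (h1 : Fc p (app f x y)) (h2 : Fc p (app f x y')) : feq y y' p :=
  (forces_imp nf_basic).1 (hf.2.2 x y y') p le_rfl ⟨h1, h2⟩

theorem func_total {p : P} {f a b x : Name P} (hf : Fc p (isFunc f a b)) (hx : fmem x a p) :
    Loc p fun r => ∃ y, fmem y b r ∧ Fc r (app f x y) :=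
  forces_bex.1 ((forces_ball nf_basic).1 hf.2.1 x p le_rfl hx)

theorem func_dom {p : P} {f a b x y : Name P} (hf : Fc p (isFunc f a b)) (h : Fc p (app f x y)) :
    fmem x a p ∧ fmem y b p := by
  have key : Loc p fun r => fmem x a r ∧ fmem y b r := by
    refine (forces_bex.1 h).bind ?_
    rintro q hq ⟨z, hz, hz'⟩
    refine (forces_bex.1 ((forces_ball nf_basic).1 hf.1 z q hq hz)).bind ?_
    rintro r hr ⟨x', hx', h2⟩
    refine (forces_bex.1 h2).imp ?_
    rintro s hs ⟨y', hy', h3⟩
    have h4 := opair_inj (feq_trans (feq_symm (fc_opair_iff.1 (Forces.mono nf_basic (hs.trans hr) hz')))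
      (fc_opair_iff.1 h3))
    exact ⟨fmem_congr_left (feq_symm h4.1) (fmem_mono hs hx'), fmem_congr_left (feq_symm h4.2) hy'⟩
  exact ⟨fmem_dense (key.imp fun _ _ h => h.1), fmem_dense (key.imp fun _ _ h => h.2)⟩

theorem inj_single {p : P} {f a b x x' y : Name P} (hf : Fc p (isInj f a b))
    (h1 : Fc p (app f x y)) (h2 : Fc p (app f x' y)) : feq x x' p :=
  (forces_imp nf_basic).1 (hf.2 x x' y) p le_rfl ⟨h1, h2⟩

theorem bij_onto {p : P} {f a b y : Name P} (hf : Fc p (isBij f a b)) (hy : fmem y b p) :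
    Loc p fun r => ∃ x, fmem x a r ∧ Fc r (app f x y) :=
  forces_bex.1 ((forces_ball nf_basic).1 hf.2 y p le_rfl hy)

theorem app_congr' {p : P} {f x y x' y' : Name P} (hx : feq x x' p) (hy : feq y y' p)
    (h : Fc p (app f x y)) : Fc p (app f x' y') := app_congr nf_basic hx hy h

end

section ord

variable {P : Type u} [Preorder P] {Ω : Type u} [LinearOrder Ω] [WellFoundedLT Ω]

/-- The name of the ordinal `{y | y < x}`. -/
noncomputable def onm (P : Type u) {Ω : Type u} [Preorder P] [LinearOrder Ω] [WellFoundedLT Ω] :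
    Ω → Name P :=
  (wellFounded_lt (α := Ω)).fix fun x ih => mkAll {y : Ω // y < x} fun y => ih y.1 y.2

theorem onm_eq (x : Ω) : onm P x = mkAll {y : Ω // y < x} fun y => onm P y.1 := by
  rw [onm, WellFounded.fix_eq]

/-- The name of the order type of `Ω`. -/
noncomputable def oall (P Ω : Type u) [Preorder P] [LinearOrder Ω] [WellFoundedLT Ω] : Name P :=
  mkAll Ω (onm P)

theorem fmem_onm {z : Name P} {x : Ω} {p : P} :
    fmem z (onm P x) p ↔ Loc p fun r => ∃ y, y < x ∧ feq z (onm P y) r := by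
  rw [onm_eq, fmem_mkAll]
  simp only [Subtype.exists, exists_prop]

theorem fmem_oall {z : Name P} {p : P} :
    fmem z (oall P Ω) p ↔ Loc p fun r => ∃ y : Ω, feq z (onm P y) r := by
  rw [oall, fmem_mkAll]

theorem onm_mem {x y : Ω} (h : y < x) (p : P) : fmem (onm P y) (onm P x) p :=
  fmem_onm.2 (Loc.pure fun _ _ => ⟨y, h, feq_refl _ _⟩)

theorem onm_mem_oall (x : Ω) (p : P) : fmem (onm P x) (oall P Ω) p :=
  fmem_oall.2 (Loc.pure fun _ _ => ⟨x, feq_refl _ _⟩)

theorem onm_irrefl (x : Ω) (p : P) : ¬ fmem (onm P x) (onm P x) p := by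
  induction x using WellFoundedLT.induction generalizing p with
  | ind x ih =>
    intro h
    obtain ⟨q, hq, y, hy, he⟩ := (fmem_onm.1 h).exists
    exact ih y hy q (fmem_congr_right he (onm_mem hy q))

theorem onm_inj {x y : Ω} {p : P} (h : feq (onm P x) (onm P y) p) : x = y := by
  rcases lt_trichotomy x y with hlt | heq | hgt
  · exact (onm_irrefl x p (fmem_congr_right (feq_symm h) (onm_mem hlt p))).elim
  · exact heq
  · exact (onm_irrefl y p (fmem_congr_right h (onm_mem hgt p))).elim

theorem onm_mem_iff {x y : Ω} {p : P} : fmem (onm P y) (onm P x) p ↔ y < x := by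
  constructor
  · intro h
    obtain ⟨q, hq, z, hz, he⟩ := (fmem_onm.1 h).exists
    rw [onm_inj he]
    exact hz
  · exact fun h => onm_mem h p

/-- names for subsets of an ordinal below a condition -/
theorem onm_ord (x : Ω) (p : P) : Fc p (isOrd (onm P x)) := by
  refine ⟨?_, ?_⟩
  · refine (forces_ball nf_basic).2 fun y q hq hy => ?_
    refine (forces_ball nf_basic).2 fun z r hr hz => ?_
    refine fmem_dense ?_
    refine ((fmem_onm.1 hy).mono hr).bind ?_
    rintro s hs ⟨y', hy', he⟩
    refine (fmem_onm.1 (fmem_congr_right he (fmem_mono hs hz))).imp ?_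
    rintro t ht ⟨z', hz', he'⟩
    exact fmem_congr_left (feq_symm he') (onm_mem (hz'.trans hy') t)
  · refine (forces_ball nf_basic).2 fun y q hq hy => ?_
    refine (forces_ball nf_basic).2 fun z r hr hz => ?_
    refine forces_or.2 ?_
    refine ((fmem_onm.1 hy).mono hr).bind ?_
    rintro s hs ⟨y', hy', he⟩
    refine (fmem_onm.1 (fmem_mono hs hz)).imp ?_
    rintro t ht ⟨z', hz', he'⟩
    rcases lt_trichotomy y' z' with h | h | h
    · left
      exact fmem_congr_left (feq_symm (feq_mono ht he)) (fmem_congr_right (feq_symm he') (onm_mem h t))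
    · right
      refine forces_or.2 (Loc.pure fun w hw => Or.inl ?_)
      subst h
      exact feq_mono hw (feq_trans (feq_mono ht he) (feq_symm he'))
    · right
      refine forces_or.2 (Loc.pure fun w hw => Or.inr ?_)
      exact fmem_mono hw (fmem_congr_left (feq_symm he')
        (fmem_congr_right (feq_symm (feq_mono ht he)) (onm_mem h t)))

theorem oall_ord (p : P) : Fc p (isOrd (oall P Ω)) := by
  refine ⟨?_, ?_⟩
  · refine (forces_ball nf_basic).2 fun y q hq hy => ?_
    refine (forces_ball nf_basic).2 fun z r hr hz => ?_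
    refine fmem_dense ?_
    refine ((fmem_oall.1 hy).mono hr).bind ?_
    rintro s hs ⟨y', he⟩
    refine (fmem_onm.1 (fmem_congr_right he (fmem_mono hs hz))).imp ?_
    rintro t ht ⟨z', hz', he'⟩
    exact fmem_congr_left (feq_symm he') (onm_mem_oall z' t)
  · refine (forces_ball nf_basic).2 fun y q hq hy => ?_
    refine (forces_ball nf_basic).2 fun z r hr hz => ?_
    refine forces_or.2 ?_
    refine ((fmem_oall.1 hy).mono hr).bind ?_
    rintro s hs ⟨y', he⟩
    refine (fmem_oall.1 (fmem_mono hs hz)).imp ?_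
    rintro t ht ⟨z', he'⟩
    rcases lt_trichotomy y' z' with h | h | h
    · left
      exact fmem_congr_left (feq_symm (feq_mono ht he)) (fmem_congr_right (feq_symm he') (onm_mem h t))
    · right
      refine forces_or.2 (Loc.pure fun w hw => Or.inl ?_)
      subst h
      exact feq_mono hw (feq_trans (feq_mono ht he) (feq_symm he'))
    · right
      refine forces_or.2 (Loc.pure fun w hw => Or.inr ?_)
      exact fmem_mono hw (fmem_congr_left (feq_symm he')
        (fmem_congr_right (feq_symm (feq_mono ht he)) (onm_mem h t)))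

end ord

section omega

variable {P : Type} [Preorder P]

theorem omega_isOmega (p : P) : Fc p (isOmega (oall P ℕ)) := by
  refine ⟨oall_ord p, ?_, ?_, ?_⟩
  · exact forces_ex.2 (Loc.pure fun q _ => ⟨onm P (0 : ℕ), onm_mem_oall 0 q⟩)
  · refine (forces_ball nf_basic).2 fun x q hq hx => ?_
    refine forces_bex.2 ?_
    refine (fmem_oall.1 hx).imp ?_
    rintro r hr ⟨n, he⟩
    exact ⟨onm P (n + 1), onm_mem_oall _ r, fmem_congr_left (feq_symm he) (onm_mem (Nat.lt_succ_self n) r)⟩
  · refine (forces_ball nf_basic).2 fun x q hq hx => ?_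
    refine (forces_imp nf_basic).2 fun r hr hne => ?_
    refine forces_bex.2 ?_
    refine ((fmem_oall.1 hx).mono hr).bind ?_
    rintro s hs ⟨n, he⟩
    refine ((forces_ex.1 hne).mono hs).bind ?_
    rintro t ht ⟨y, hy⟩
    refine (fmem_onm.1 (fmem_congr_right (feq_mono ht he) hy)).imp ?_
    rintro w hw ⟨m, hm, he'⟩
    obtain ⟨k, rfl⟩ : ∃ k, n = k + 1 := ⟨n - 1, by omega⟩
    refine ⟨onm P k, fmem_congr_right (feq_symm (feq_mono (hw.trans ht) he))
      (onm_mem (Nat.lt_succ_self k) w), ?_⟩
    refine (forces_ball nf_basic).2 fun z v hv hz => ?_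
    intro v' hv' hzk
    have h1 : fmem z (onm P (k + 1)) v' :=
      fmem_congr_right (feq_mono (hv'.trans (hv.trans (hw.trans ht))) he) (fmem_mono hv' hz)
    obtain ⟨v'', hv'', j, hj, hej⟩ := (fmem_onm.1 h1).exists
    have h2 : fmem (onm P k) (onm P j) v'' := fmem_congr_right hej (fmem_mono hv'' hzk)
    rw [onm_mem_iff] at h2
    omega

end omega

end Pool.Agent.Lib_helper27.V
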