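import Pool.Agent.Lib_helper27.V.Name
import Pool.Agent.Lib_helper27.Sys
import Pool.Agent.Lib_helper27.Model

/-!
# Mixing of names, the quotient by an ultrafilter, and the truth lemma
-/

namespace Pool.Agent.Lib_helper27.V

universe u

open Fml FirstOrder

section mixing

variable {P : Type u} [Preorder P]

/-- formulas in one variable compatible with forced equality -/
def Congr1 (φ : Name P → Fml (Name P)) : Prop :=
  ∀ p x y, feq x y p → Fml.Rel (fun a b => feq a b p) (φ x) (φ y)

/-- compatible conditions -/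
def Cpt (p q : P) : Prop := ∃ r, r ≤ p ∧ r ≤ q

theorem exists_max_antichain (D : Set P) : ∃ A : Set P, A ⊆ D ∧
    (∀ a ∈ A, ∀ b ∈ A, Cpt a b → a = b) ∧ ∀ d ∈ D, ∃ a ∈ A, Cpt d a := by
  obtain ⟨A, hA⟩ := zorn_subset {A : Set P | A ⊆ D ∧ ∀ a ∈ A, ∀ b ∈ A, Cpt a b → a = b} (by
    intro c hc hch
    refine ⟨⋃₀ c, ⟨Set.sUnion_subset fun s hs => (hc hs).1, ?_⟩, fun s hs => Set.subset_sUnion_of_mem hs⟩
    rintro a ⟨s, hs, ha⟩ b ⟨t, ht, hb⟩ hab
    rcases hch.total hs ht with h | h
    · exact (hc ht).2 a (h ha) b hb hab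
    · exact (hc hs).2 a ha b (h hb) hab)
  refine ⟨A, hA.prop.1, hA.prop.2, ?_⟩
  intro d hd
  by_contra hcon
  push Not at hcon
  have hcon' : ∀ a ∈ A, ¬ Cpt a d := fun a ha ⟨r, h1, h2⟩ => hcon a ha ⟨r, h2, h1⟩
  have h1 : insert d A ∈ {A : Set P | A ⊆ D ∧ ∀ a ∈ A, ∀ b ∈ A, Cpt a b → a = b} := by
    refine ⟨Set.insert_subset hd hA.prop.1, ?_⟩
    rintro a (rfl | ha) b (rfl | hb) hab
    · rfl
    · exact (hcon b hb hab).elim
    · exact (hcon' a ha hab).elim
    · exact hA.prop.2 a ha b hb hab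
  have h2 := hA.le_of_ge h1 (Set.subset_insert d A)
  exact hcon d (h2 (Set.mem_insert d A)) ⟨d, le_rfl, le_rfl⟩

/-- The maximum principle. -/
theorem exists_mix (φ : Name P → Fml (Name P)) (hφ : Congr1 φ) :
    ∃ t, ∀ p, Fc p (ex φ) → Fc p (φ t) := by
  classical
  obtain ⟨A, hAD, hA, hmax⟩ := exists_max_antichain {q : P | ∃ x, Fc q (φ x)}
  choose t ht using fun a : A => hAD a.2
  let T : Name P := .mk (Σ a : A, Σ i : (t a).idx, {q : P // q ≤ a.1 ∧ q ≤ (t a).cnd i})
    (fun z => (t z.1).elt z.2.1) (fun z => z.2.2.1)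
  have hT : ∀ (a : A) (p : P), p ≤ a.1 → feq (t a) T p := by
    intro a p hp
    rw [feq_iff]
    constructor
    · intro i q hq hq'
      exact ⟨q, le_rfl, ⟨a, i, q, hq.trans hp, hq'⟩, le_rfl, feq_refl _ _⟩
    · rintro ⟨a', i, q', h1, h2⟩ q hq hq'
      have : a = a' := Subtype.ext (hA a.1 a.2 a'.1 a'.2 ⟨q, hq.trans hp, le_trans hq' h1⟩)
      subst this
      exact ⟨q, le_rfl, i, le_trans hq' h2, feq_refl _ _⟩
  refine ⟨T, ?_⟩
  intro p hp
  refine Forces.dense nf_basic ?_
  refine (forces_ex.1 hp).bind ?_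
  rintro q hq ⟨x, hx⟩ r hr
  obtain ⟨a, ha, s, hs1, hs2⟩ := hmax r ⟨x, Forces.mono nf_basic hr hx⟩
  refine ⟨s, hs1, ?_⟩
  have := Forces.mono nf_basic hs2 (ht ⟨a, ha⟩)
  exact (fc_congr (hφ s _ _ (hT ⟨a, ha⟩ s hs2)) le_rfl).1 this

end mixing

section ultra

variable (P : Type u) [Preorder P]

/-- The filter generated by the dense open sets of conditions. -/
def denseFilter : Filter P where
  sets := {S | ∀ p : P, ∃ q, q ≤ p ∧ ∀ r, r ≤ q → r ∈ S}
  univ_sets := fun p => ⟨p, le_rfl, fun _ _ => trivial⟩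
  sets_of_superset := by
    intro S T hS hST p
    obtain ⟨q, hq, h⟩ := hS p
    exact ⟨q, hq, fun r hr => hST (h r hr)⟩
  inter_sets := by
    intro S T hS hT p
    obtain ⟨q, hq, h⟩ := hS p
    obtain ⟨r, hr, h'⟩ := hT q
    exact ⟨r, hr.trans hq, fun s hs => ⟨h s (hs.trans hr), h' s hs⟩⟩

instance [Nonempty P] : (denseFilter P).NeBot := by
  constructor
  intro h
  have : (∅ : Set P) ∈ denseFilter P := by rw [h]; exact Filter.mem_bot
  obtain ⟨p⟩ := ‹Nonempty P›
  obtain ⟨q, _, h⟩ := this p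
  exact h q le_rfl

/-- An ultrafilter on the set of conditions containing all dense open sets. -/
noncomputable def uf [Nonempty P] : Ultrafilter P := Ultrafilter.of (denseFilter P)

variable {P} [Nonempty P]

theorem uf_dense {Q : P → Prop} (h : ∀ p : P, ∃ q, q ≤ p ∧ ∀ r, r ≤ q → Q r) :
    ∀ᶠ p in (uf P : Filter P), Q p := Ultrafilter.of_le (denseFilter P) h

/-- Truth of a formula about names. -/
def T (φ : Fml (Name P)) : Prop := ∀ᶠ p in (uf P : Filter P), Fc p φ

theorem T_of_forces {φ : Fml (Name P)} (h : ∀ p, Fc p φ) : T φ := Filter.Eventually.of_forall h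

theorem T.imp {φ ψ : Fml (Name P)} (h : T φ) (h' : ∀ p, Fc p φ → Fc p ψ) : T ψ :=
  Filter.Eventually.mono h h'

theorem T_congr {φ ψ : Fml (Name P)} (h' : ∀ p, Fc p φ ↔ Fc p ψ) : T φ ↔ T ψ :=
  ⟨fun h => h.imp fun p => (h' p).1, fun h => h.imp fun p => (h' p).2⟩

theorem T_and {φ ψ : Fml (Name P)} : T (and φ ψ) ↔ T φ ∧ T ψ := Filter.eventually_and

theorem T_neg {φ : Fml (Name P)} : T (neg φ) ↔ ¬ T φ := by
  have h1 : ∀ᶠ p in (uf P : Filter P), Fc p φ ∨ Fc p (neg φ) := by
    refine uf_dense fun p => ?_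
    by_cases h : ∃ q, q ≤ p ∧ Fc q φ
    · obtain ⟨q, hq, h⟩ := h
      exact ⟨q, hq, fun r hr => Or.inl (Forces.mono nf_basic hr h)⟩
    · push Not at h
      exact ⟨p, le_rfl, fun r hr => Or.inr fun s hs => h s (hs.trans hr)⟩
  constructor
  · intro h h'
    obtain ⟨p, h1, h2⟩ := (Filter.Eventually.and h h').exists
    exact h1 p le_rfl h2
  · intro h
    rcases Ultrafilter.eventually_or.1 h1 with h' | h'
    · exact (h h').elim
    · exact h'

theorem T_all {φ : Name P → Fml (Name P)} (hφ : Congr1 φ) : T (all φ) ↔ ∀ x, T (φ x) := by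
  constructor
  · intro h x
    exact h.imp fun p hp => hp x
  · intro h
    by_contra hcon
    rw [← T_neg] at hcon
    obtain ⟨t, ht⟩ := exists_mix (fun x => neg (φ x)) (fun p x y h => .neg (hφ p x y h))
    have : T (neg (φ t)) := by
      refine hcon.imp fun p hp => ht p ?_
      refine forces_ex.2 ?_
      intro q hq
      have h1 := hp q hq
      rw [forces_all] at h1
      push Not at h1
      obtain ⟨x, hx⟩ := h1
      by_contra hc
      push Not at hc
      refine hx (Forces.dense nf_basic ?_)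
      intro r hr
      have h2 := hc r hr x
      rw [forces_neg] at h2
      push Not at h2
      exact h2
    exact T_neg.1 this (h t)

variable (P) in
/-- Equality of names modulo the ultrafilter. -/
instance nameSetoid : Setoid (Name P) where
  r x y := T (eq x y)
  iseqv := ⟨fun x => T_of_forces fun p => feq_refl x p, fun h => h.imp fun _ => feq_symm,
    fun h h' => (T_and.2 ⟨h, h'⟩).imp fun _ h => feq_trans h.1 h.2⟩

variable (P) in
/-- The extension: names modulo the ultrafilter. -/
def Ext : Type (u + 1) := Quotient (nameSetoid P)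

/-- the quotient map -/
def π (x : Name P) : Ext P := Quotient.mk _ x

theorem π_surj (y : Ext P) : ∃ x, π x = y := Quotient.exists_rep y

theorem π_eq {x y : Name P} : π x = π y ↔ T (eq x y) := Quotient.eq

variable (P) in
/-- membership in the extension -/
def extE : Ext P → Ext P → Prop := Quotient.lift₂ (fun x y => T (mem x y)) (by
  intro a b a' b' h h'
  refine propext ⟨fun h1 => ?_, fun h1 => ?_⟩
  · exact (T_and.2 ⟨T_and.2 ⟨h, h'⟩, h1⟩).imp fun p hp =>
      fmem_congr_left hp.1.1 (fmem_congr_right hp.1.2 hp.2)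
  · exact (T_and.2 ⟨T_and.2 ⟨h, h'⟩, h1⟩).imp fun p hp =>
      fmem_congr_left (feq_symm hp.1.1) (fmem_congr_right (feq_symm hp.1.2) hp.2))

theorem extE_π {x y : Name P} : extE P (π x) (π y) ↔ T (mem x y) := Iff.rfl

/-- The same formula over the extension and over the names. -/
inductive Lk : Fml (Ext P) → Fml (Name P) → Prop
  | mem (x y : Name P) : Lk (mem (π x) (π y)) (mem x y)
  | eq (x y : Name P) : Lk (eq (π x) (π y)) (eq x y)
  | neg {φ ψ} : Lk φ ψ → Lk (neg φ) (neg ψ)
  | and {φ ψ φ' ψ'} : Lk φ ψ → Lk φ' ψ' → Lk (and φ φ') (and ψ ψ')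
  | all {φ ψ} : (∀ t, Lk (φ (π t)) (ψ t)) → Congr1 ψ → Lk (all φ) (all ψ)

/-- The truth lemma. -/
theorem los {φ : Fml (Ext P)} {ψ : Fml (Name P)} (h : Lk φ ψ) : Holds (extE P) φ ↔ T ψ := by
  induction h with
  | mem x y => exact extE_π
  | eq x y => exact π_eq
  | neg _ ih => rw [T_neg, holds_neg, ih]
  | and _ _ ih1 ih2 => rw [T_and, holds_and, ih1, ih2]
  | all _ hc ih =>
    rw [T_all hc, holds_all]
    constructor
    · intro h t
      exact (ih t).1 (h _)
    · intro h x
      obtain ⟨t, rfl⟩ := π_surj x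
      exact (ih t).2 (h t)

theorem T_ex {φ : Name P → Fml (Name P)} (hφ : Congr1 φ) : T (ex φ) ↔ ∃ x, T (φ x) := by
  rw [ex, T_neg, T_all (fun p x y h => .neg (hφ p x y h))]
  push Not
  exact exists_congr fun x => by rw [T_neg, not_not]

theorem T_imp {φ ψ : Fml (Name P)} : T (imp φ ψ) ↔ (T φ → T ψ) := by
  rw [imp, T_neg, T_and, T_neg]
  tauto

theorem T_iff {φ ψ : Fml (Name P)} : T (Fml.iff φ ψ) ↔ (T φ ↔ T ψ) := by
  rw [Fml.iff, T_and, T_imp, T_imp]
  tauto

theorem T_or {φ ψ : Fml (Name P)} : T (Fml.or φ ψ) ↔ (T φ ∨ T ψ) := by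
  rw [Fml.or, T_neg, T_and, T_neg, T_neg]
  tauto

end ultra

section deep

variable {P : Type u} [Preorder P]

/-- value of a term (a variable) -/
def tval {α : Type*} {n : ℕ} (v : α → Name P) (xs : Fin n → Name P) :
    LSet.Term (α ⊕ Fin n) → Name P
  | .var a => Sum.elim v xs a
  | .func f _ => f.elim

/-- Translation of the formulas of Mathlib. -/
def toF {α : Type*} : {n : ℕ} → LSet.BoundedFormula α n → (α → Name P) → (Fin n → Name P) →
    Fml (Name P)
  | _, .falsum => fun _ _ => neg (all fun x => eq x x)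
  | _, .equal t s => fun v xs => eq (tval v xs t) (tval v xs s)
  | _, .rel (l := l) R ts => fun v xs =>
      (match l, R, ts with
        | _, SetRel.mem, ts => mem (tval v xs (ts 0)) (tval v xs (ts 1)) :)
  | _, .imp f g => fun v xs => imp (toF f v xs) (toF g v xs)
  | _, .all f => fun v xs => all fun x => toF f v (Fin.snoc xs x)

omit [Preorder P] in
theorem tval_rel {α : Type*} {n : ℕ} {r : Name P → Name P → Prop} {v v' : α → Name P}
    {xs xs' : Fin n → Name P} (hv : ∀ a, r (v a) (v' a)) (hx : ∀ i, r (xs i) (xs' i))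
    (t : LSet.Term (α ⊕ Fin n)) : r (tval v xs t) (tval v' xs' t) := by
  cases t with
  | var a => cases a with
    | inl a => exact hv a
    | inr i => exact hx i
  | func f _ => exact f.elim

omit [Preorder P] in
theorem toF_rel {α : Type*} {n : ℕ} {r : Name P → Name P → Prop} (hr : ∀ x, r x x)
    (f : LSet.BoundedFormula α n) {v v' : α → Name P}
    {xs xs' : Fin n → Name P} (hv : ∀ a, r (v a) (v' a)) (hx : ∀ i, r (xs i) (xs' i)) :
    Fml.Rel r (toF f v xs) (toF f v' xs') := by
  induction f with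
  | falsum => exact .neg (.all fun x => .eq (hr x) (hr x))
  | equal t s => exact .eq (tval_rel hv hx t) (tval_rel hv hx s)
  | rel R ts =>
    cases R
    exact .mem (tval_rel hv hx _) (tval_rel hv hx _)
  | imp f g ih1 ih2 => exact .imp (ih1 hx) (ih2 hx)
  | all f ih =>
    refine .all fun x => ih ?_
    intro i
    refine Fin.lastCases ?_ (fun j => ?_) i
    · simpa using hr x
    · simpa using hx j

variable [Nonempty P]

theorem realize_iff {α : Type*} {n : ℕ} (f : LSet.BoundedFormula α n) (v : α → Name P)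
    (xs : Fin n → Name P) :
    @FirstOrder.Language.BoundedFormula.Realize LSet (Ext P) (setStructure (extE P)) _ _ f
      (fun a => π (v a)) (fun i => π (xs i)) ↔ T (toF f v xs) := by
  let _ := setStructure (extE P)
  have tr : ∀ {n : ℕ} (t : LSet.Term (α ⊕ Fin n)) (xs : Fin n → Name P),
      t.realize (Sum.elim (fun a => π (v a)) (fun i => π (xs i))) = π (tval v xs t) := by
    intro n t xs
    cases t with
    | var a => cases a <;> rfl
    | func f _ => exact f.elim
  induction f with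
  | falsum =>
    refine iff_of_false (fun h => h) ?_
    rw [toF, T_neg, not_not]
    exact T_of_forces fun p x => feq_refl x p
  | equal t s =>
    change t.realize _ = s.realize _ ↔ _
    rw [tr, tr, π_eq]
    rfl
  | rel R ts =>
    cases R
    change extE P ((ts 0).realize _) ((ts 1).realize _) ↔ _
    rw [tr, tr]
    exact extE_π
  | imp f g ih1 ih2 =>
    exact Iff.trans (imp_congr (ih1 xs) (ih2 xs)) T_imp.symm
  | all f ih =>
    change (∀ x, f.Realize _ (Fin.snoc _ x)) ↔ _
    rw [toF, T_all]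
    · have key : ∀ t : Name P, (Fin.snoc (fun i => π (xs i)) (π t) : Fin (_ + 1) → Ext P) =
          fun i => π ((Fin.snoc xs t : Fin (_ + 1) → Name P) i) := by
        intro t
        ext i
        refine Fin.lastCases ?_ (fun j => ?_) i
        · simp
        · simp
      constructor
      · intro h t
        have h1 := h (π t)
        rw [key] at h1
        exact (ih _).1 h1
      · intro h x
        obtain ⟨t, rfl⟩ := π_surj x
        have := (ih (Fin.snoc xs t)).2 (h t)
        rw [key]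
        exact this
    · intro p x y h
      refine toF_rel (fun x => feq_refl x p) f (fun a => feq_refl _ p) ?_
      intro i
      refine Fin.lastCases ?_ (fun j => ?_) i
      · simpa using h
      · simpa using feq_refl _ p

end deep

end Pool.Agent.Lib_helper27.V
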