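import Pool.Agent.Lib_helper27.Calc

/-!
# Names and the forcing relation for atomic formulas

`Name P` is the class of `P`-names over the universe of types; the forcing relations `p ⊩ x = y` and
`p ⊩ x ∈ y` are defined by the usual recursion.
-/

namespace Pool.Agent.Lib_helper27.V

universe u

open Fml

/-- `P`-names: `mk ι x c` is the name for the set of (the interpretations of) all `x i` such that
`c i` belongs to the generic filter. -/
inductive Name (P : Type u) : Type (u + 1)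
  | mk (ι : Type u) (x : ι → Name P) (c : ι → P) : Name P

namespace Name

variable {P : Type u}

/-- index type -/
def idx : Name P → Type u
  | mk ι _ _ => ι

/-- the names of the potential elements -/
def elt : (a : Name P) → a.idx → Name P
  | mk _ x _ => x

/-- the conditions attached to the potential elements -/
def cnd : (a : Name P) → a.idx → P
  | mk _ _ c => c

end Name

section

variable {P : Type u} [Preorder P]

/-- `p ⊩ a = b` -/
def feq : Name P → Name P → P → Prop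
  | .mk ι x c, .mk κ y d => fun p =>
    (∀ i : ι, ∀ q, q ≤ p → q ≤ c i → ∃ r, r ≤ q ∧ ∃ j : κ, r ≤ d j ∧ feq (x i) (y j) r) ∧
    (∀ j : κ, ∀ q, q ≤ p → q ≤ d j → ∃ r, r ≤ q ∧ ∃ i : ι, r ≤ c i ∧ feq (x i) (y j) r)

/-- `p ⊩ a ∈ b` -/
def fmem (a b : Name P) (p : P) : Prop :=
  ∀ q, q ≤ p → ∃ r, r ≤ q ∧ ∃ j : b.idx, r ≤ b.cnd j ∧ feq a (b.elt j) r

theorem feq_iff {a b : Name P} {p : P} : feq a b p ↔
    (∀ i : a.idx, ∀ q, q ≤ p → q ≤ a.cnd i → ∃ r, r ≤ q ∧ ∃ j : b.idx, r ≤ b.cnd j ∧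
      feq (a.elt i) (b.elt j) r) ∧
    (∀ j : b.idx, ∀ q, q ≤ p → q ≤ b.cnd j → ∃ r, r ≤ q ∧ ∃ i : a.idx, r ≤ a.cnd i ∧
      feq (a.elt i) (b.elt j) r) := by
  cases a; cases b
  exact Iff.rfl

theorem feq_refl (a : Name P) (p : P) : feq a a p := by
  induction a generalizing p with
  | mk ι x c ih =>
    rw [feq_iff]
    exact ⟨fun i q _ hq' => ⟨q, le_rfl, i, hq', ih i q⟩, fun i q _ hq' => ⟨q, le_rfl, i, hq', ih i q⟩⟩

theorem feq_symm {a b : Name P} {p : P} (h : feq a b p) : feq b a p := by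
  induction a generalizing b p with
  | mk ι x c ih =>
    rw [feq_iff] at h ⊢
    constructor
    · intro i q hq hq'
      obtain ⟨r, hr, j, hj, he⟩ := h.2 i q hq hq'
      exact ⟨r, hr, j, hj, ih _ he⟩
    · intro i q hq hq'
      obtain ⟨r, hr, j, hj, he⟩ := h.1 i q hq hq'
      exact ⟨r, hr, j, hj, ih _ he⟩

theorem feq_mono {a b : Name P} {p q : P} (hq : q ≤ p) (h : feq a b p) : feq a b q := by
  rw [feq_iff] at h ⊢
  exact ⟨fun i r hr hr' => h.1 i r (hr.trans hq) hr', fun i r hr hr' => h.2 i r (hr.trans hq) hr'⟩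

theorem fmem_mono {a b : Name P} {p q : P} (hq : q ≤ p) (h : fmem a b p) : fmem a b q :=
  fun r hr => h r (hr.trans hq)

theorem feq_dense {a b : Name P} {p : P} (h : ∀ q, q ≤ p → ∃ r, r ≤ q ∧ feq a b r) :
    feq a b p := by
  rw [feq_iff]
  constructor
  · intro i q hq hq'
    obtain ⟨r, hr, he⟩ := h q hq
    obtain ⟨s, hs, j, hj, he'⟩ := (feq_iff.1 he).1 i r le_rfl (hr.trans hq')
    exact ⟨s, hs.trans hr, j, hj, he'⟩
  · intro i q hq hq'
    obtain ⟨r, hr, he⟩ := h q hq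
    obtain ⟨s, hs, j, hj, he'⟩ := (feq_iff.1 he).2 i r le_rfl (hr.trans hq')
    exact ⟨s, hs.trans hr, j, hj, he'⟩

theorem fmem_dense {a b : Name P} {p : P} (h : ∀ q, q ≤ p → ∃ r, r ≤ q ∧ fmem a b r) :
    fmem a b p := by
  intro q hq
  obtain ⟨r, hr, hm⟩ := h q hq
  obtain ⟨s, hs, hm⟩ := hm r le_rfl
  exact ⟨s, hs.trans hr, hm⟩

theorem feq_trans {a b c : Name P} {p : P} (h1 : feq a b p) (h2 : feq b c p) : feq a c p := by
  induction a generalizing b c p with
  | mk ι x d ih =>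
    rw [feq_iff]
    constructor
    · intro i q hq hq'
      obtain ⟨r, hr, j, hj, he⟩ := (feq_iff.1 h1).1 i q hq hq'
      obtain ⟨s, hs, k, hk, he'⟩ := (feq_iff.1 h2).1 j r (hr.trans hq) hj
      exact ⟨s, hs.trans hr, k, hk, ih _ (feq_mono hs he) he'⟩
    · intro k q hq hq'
      obtain ⟨r, hr, j, hj, he⟩ := (feq_iff.1 h2).2 k q hq hq'
      obtain ⟨s, hs, i, hi, he'⟩ := (feq_iff.1 h1).2 j r (hr.trans hq) hj
      exact ⟨s, hs.trans hr, i, hi, ih _ he' (feq_mono hs he)⟩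

theorem fmem_of_idx {b : Name P} {p : P} (j : b.idx) (h : p ≤ b.cnd j) : fmem (b.elt j) b p :=
  fun q hq => ⟨q, le_rfl, j, hq.trans h, feq_refl _ _⟩

theorem fmem_congr_left {a a' b : Name P} {p : P} (h : feq a a' p) (hm : fmem a b p) :
    fmem a' b p := by
  intro q hq
  obtain ⟨r, hr, j, hj, he⟩ := hm q hq
  exact ⟨r, hr, j, hj, feq_trans (feq_symm (feq_mono (hr.trans hq) h)) he⟩

theorem fmem_congr_right {a b b' : Name P} {p : P} (h : feq b b' p) (hm : fmem a b p) :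
    fmem a b' p := by
  intro q hq
  obtain ⟨r, hr, j, hj, he⟩ := hm q hq
  obtain ⟨s, hs, k, hk, he'⟩ := (feq_iff.1 h).1 j r (hr.trans hq) hj
  exact ⟨s, hs.trans hr, k, hk, feq_trans (feq_mono hs he) he'⟩

theorem fmem_iff_loc {a b : Name P} {p : P} :
    fmem a b p ↔ Loc p (fun r => ∃ j : b.idx, r ≤ b.cnd j ∧ feq a (b.elt j) r) := Iff.rfl

theorem feq_ext {a b : Name P} {p : P} (h : ∀ z, ∀ q, q ≤ p → (fmem z a q ↔ fmem z b q)) :
    feq a b p := by
  rw [feq_iff]
  constructor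
  · intro i q hq hq'
    obtain ⟨r, hr, j, hj, he⟩ := (h _ q hq).1 (fmem_of_idx i hq') q le_rfl
    exact ⟨r, hr, j, hj, he⟩
  · intro i q hq hq'
    obtain ⟨r, hr, j, hj, he⟩ := (h _ q hq).2 (fmem_of_idx i hq') q le_rfl
    exact ⟨r, hr, j, hj, feq_symm he⟩

variable (P) in
/-- The atomic forcing relation for names. -/
def NF : AtomForce P (Name P) where
  mem p x y := fmem x y p
  eq p x y := feq x y p

theorem nf_basic : (NF P).Basic where
  eq_refl p x := feq_refl x p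
  eq_symm := feq_symm
  eq_trans := feq_trans
  eq_mono := feq_mono
  mem_mono := fmem_mono
  eq_dense := feq_dense
  mem_dense := fmem_dense
  mem_congr h1 h2 h := fmem_congr_left h1 (fmem_congr_right h2 h)
  ext := feq_ext

/-- `p ⊩ φ` for formulas with names as parameters -/
abbrev Fc (p : P) (φ : Fml (Name P)) : Prop := Forces (NF P) p φ

theorem fc_mem {p : P} {x y : Name P} : Fc p (mem x y) ↔ fmem x y p := Iff.rfl

theorem fc_eq {p : P} {x y : Name P} : Fc p (eq x y) ↔ feq x y p := Iff.rfl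

theorem fc_congr {p : P} {φ φ' : Fml (Name P)} (h : Fml.Rel (fun x y => feq x y p) φ φ')
    {q : P} (hq : q ≤ p) : Fc q φ ↔ Fc q φ' := Forces.congr nf_basic h hq

end

end Pool.Agent.Lib_helper27.V
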