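import Pool.Agent.Lib_helper27.V.Los

/-!
# The extension is a model of ZFC
-/

namespace Pool.Agent.Lib_helper27.V

universe u

open Fml FirstOrder

section build

variable {P : Type u} [Preorder P]

/-- The name `{(x i, q) : Q i q}`. -/
def mkQ (ι : Type u) (x : ι → Name P) (Q : ι → P → Prop) : Name P :=
  .mk (Σ i : ι, {q : P // Q i q}) (fun z => x z.1) (fun z => z.2.1)

/-- `Q` is preserved by going to stronger conditions. -/
def Down {ι : Type*} (Q : ι → P → Prop) : Prop := ∀ i p q, q ≤ p → Q i p → Q i q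

theorem fmem_mkQ {ι : Type u} {x : ι → Name P} {Q : ι → P → Prop} (hQ : Down Q) {w : Name P}
    {p : P} : fmem w (mkQ ι x Q) p ↔ Loc p (fun r => ∃ i, Q i r ∧ feq w (x i) r) := by
  rw [fmem_iff_loc]
  constructor
  · intro h
    refine h.imp ?_
    rintro r _ ⟨⟨i, q, hq⟩, hr, he⟩
    exact ⟨i, hQ i q r hr hq, he⟩
  · intro h
    refine h.imp ?_
    rintro r _ ⟨i, hi, he⟩
    exact ⟨⟨i, r, hi⟩, le_rfl, he⟩

theorem fmem_mkQ_of {ι : Type u} {x : ι → Name P} {Q : ι → P → Prop} (hQ : Down Q) {i : ι}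
    {p : P} (h : Q i p) : fmem (x i) (mkQ ι x Q) p :=
  (fmem_mkQ hQ).2 (Loc.pure fun q hq => ⟨i, hQ i p q hq h, feq_refl _ _⟩)

/-- The name of the set of all `x i`. -/
def mkAll (ι : Type u) (x : ι → Name P) : Name P := mkQ ι x fun _ _ => True

theorem down_true {ι : Type*} : Down (P := P) (fun (_ : ι) _ => True) := fun _ _ _ _ _ => trivial

theorem fmem_mkAll {ι : Type u} {x : ι → Name P} {w : Name P}
    {p : P} : fmem w (mkAll ι x) p ↔ Loc p (fun r => ∃ i, feq w (x i) r) := by
  rw [mkAll, fmem_mkQ down_true]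
  simp

theorem fmem_mkAll_of {ι : Type u} {x : ι → Name P} (i : ι) {p : P} :
    fmem (x i) (mkAll ι x) p := fmem_mkAll.2 (Loc.pure fun _ _ => ⟨i, feq_refl _ _⟩)

/-- The name of `{x ∈ a : φ x}`. -/
def mkSep (a : Name P) (φ : Name P → Fml (Name P)) : Name P :=
  mkQ a.idx a.elt fun i r => r ≤ a.cnd i ∧ Fc r (φ (a.elt i))

theorem down_sep (a : Name P) (φ : Name P → Fml (Name P)) :
    Down (fun (i : a.idx) r => r ≤ a.cnd i ∧ Fc r (φ (a.elt i))) :=
  fun _ _ _ hq h => ⟨hq.trans h.1, Forces.mono nf_basic hq h.2⟩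

theorem fmem_mkSep {a : Name P} {φ : Name P → Fml (Name P)} (hφ : Congr1 φ) {w : Name P} {p : P} :
    fmem w (mkSep a φ) p ↔ fmem w a p ∧ Fc p (φ w) := by
  rw [mkSep, fmem_mkQ (down_sep a φ)]
  constructor
  · intro h
    refine ⟨fmem_dense (h.imp ?_), Forces.dense nf_basic (h.imp ?_)⟩
    · rintro r _ ⟨i, ⟨h1, _⟩, he⟩
      exact fmem_congr_left (feq_symm he) (fmem_of_idx i h1)
    · rintro r _ ⟨i, ⟨_, h2⟩, he⟩
      exact (fc_congr (hφ r _ _ he) le_rfl).2 h2
  · rintro ⟨h1, h2⟩
    refine (fmem_iff_loc.1 h1).imp ?_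
    rintro r hr ⟨i, hi, he⟩
    exact ⟨i, ⟨hi, (fc_congr (hφ r _ _ he) le_rfl).1 (Forces.mono nf_basic hr h2)⟩, he⟩

/-- The name of `{a, b}`. -/
def mkPair (a b : Name P) : Name P := mkAll (ULift Bool) fun i => cond i.down a b

theorem fmem_mkPair {a b w : Name P} {p : P} :
    fmem w (mkPair a b) p ↔ Fc p (Fml.or (eq w a) (eq w b)) := by
  rw [mkPair, fmem_mkAll, Fc, forces_or]
  constructor
  · intro h
    refine h.imp ?_
    rintro r _ ⟨⟨i⟩, he⟩
    cases i
    · exact Or.inr he
    · exact Or.inl he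
  · intro h
    refine h.imp ?_
    rintro r _ (he | he)
    · exact ⟨⟨true⟩, he⟩
    · exact ⟨⟨false⟩, he⟩

/-- The name of the union of `a`. -/
def mkUnion (a : Name P) : Name P :=
  mkQ (Σ i : a.idx, (a.elt i).idx) (fun z => (a.elt z.1).elt z.2)
    fun z r => r ≤ a.cnd z.1 ∧ r ≤ (a.elt z.1).cnd z.2

theorem fmem_mkUnion {a w : Name P} {p : P} :
    fmem w (mkUnion a) p ↔ Fc p (bex a fun y => mem w y) := by
  rw [mkUnion, fmem_mkQ (fun _ _ _ hq h => ⟨hq.trans h.1, hq.trans h.2⟩), Fc, forces_bex]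
  constructor
  · intro h
    refine h.imp ?_
    rintro r _ ⟨⟨i, j⟩, ⟨h1, h2⟩, he⟩
    exact ⟨a.elt i, fmem_of_idx i h1, fmem_congr_left (feq_symm he) (fmem_of_idx j h2)⟩
  · intro h
    refine h.bind ?_
    rintro r _ ⟨y, h1, h2⟩
    refine (fmem_iff_loc.1 h1).bind ?_
    rintro s hs ⟨i, hi, he⟩
    refine (fmem_iff_loc.1 (fmem_congr_right he (fmem_mono hs h2))).imp ?_
    rintro t ht ⟨j, hj, he'⟩
    exact ⟨⟨i, j⟩, ⟨ht.trans hi, hj⟩, he'⟩

/-- A name for a subset of `a`. -/
def mkSub (a : Name P) (S : a.idx → Set P) : Name P :=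
  mkQ a.idx a.elt fun i r => r ≤ a.cnd i ∧ ∃ q ∈ S i, r ≤ q

theorem down_sub (a : Name P) (S : a.idx → Set P) :
    Down (fun (i : a.idx) r => r ≤ a.cnd i ∧ ∃ q ∈ S i, r ≤ q) :=
  fun _ _ _ hq ⟨h1, q', h2, h3⟩ => ⟨hq.trans h1, q', h2, hq.trans h3⟩

theorem exists_mkSub {a w : Name P} {p : P} (h : Fc p (isSubset w a)) :
    ∃ S, feq w (mkSub a S) p := by
  refine ⟨fun i => {q | fmem (a.elt i) w q}, feq_ext ?_⟩
  intro z q hq
  rw [mkSub, fmem_mkQ (down_sub _ _)]
  constructor
  · intro hz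
    have h1 : fmem z a q := (forces_ball nf_basic).1 h z q hq hz
    refine (fmem_iff_loc.1 h1).imp ?_
    rintro r hr ⟨i, hi, he⟩
    exact ⟨i, ⟨hi, r, fmem_congr_left he (fmem_mono hr hz), le_rfl⟩, he⟩
  · intro hz
    refine fmem_dense (hz.imp ?_)
    rintro r hr ⟨i, ⟨_, q', hq', hle⟩, he⟩
    exact fmem_congr_left (feq_symm he) (fmem_mono hle hq')

/-- The name of the power set of `a`. -/
def mkPow (a : Name P) : Name P := mkAll (a.idx → Set P) (mkSub a)

theorem fmem_mkPow {a w : Name P} {p : P} :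
    fmem w (mkPow a) p ↔ Fc p (isSubset w a) := by
  rw [mkPow, fmem_mkAll]
  constructor
  · intro h
    refine Forces.dense nf_basic (h.imp ?_)
    rintro r _ ⟨S, he⟩
    refine (forces_ball nf_basic).2 ?_
    intro x q hq hx
    have h1 : fmem x (mkSub a S) q := fmem_congr_right (feq_mono hq he) hx
    rw [mkSub, fmem_mkQ (down_sub _ _)] at h1
    refine fmem_dense (h1.imp ?_)
    rintro s _ ⟨i, ⟨hi, _⟩, he'⟩
    exact fmem_congr_left (feq_symm he') (fmem_of_idx i hi)
  · intro h
    refine Loc.pure fun q hq => ?_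
    exact exists_mkSub (Forces.mono nf_basic hq h)

/-- the empty set -/
def mkEmpty : Name P := mkAll PEmpty fun i => i.elim

theorem not_fmem_mkEmpty {w : Name P} {p : P} : ¬ fmem w mkEmpty p := by
  intro h
  obtain ⟨_, _, i, _⟩ := (fmem_mkAll.1 h).exists
  exact i.elim

/-- The name of `n`. -/
def natName : ℕ → Name P
  | 0 => mkEmpty
  | n + 1 => mkUnion (mkPair (natName n) (mkPair (natName n) (natName n)))

theorem fmem_natName_succ {n : ℕ} {w : Name P} {p : P} :
    fmem w (natName (n + 1)) p ↔ Fc p (Fml.or (mem w (natName n)) (eq w (natName n))) := by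
  rw [natName, fmem_mkUnion, Fc, forces_bex, Fc, forces_or]
  constructor
  · intro h
    refine h.bind ?_
    rintro r _ ⟨y, hy, hw⟩
    rw [show (NF P).mem r y _ = fmem y _ r from rfl, fmem_mkPair, Fc, forces_or] at hy
    refine hy.bind ?_
    rintro s hs (he | he)
    · exact Loc.pure fun t ht => Or.inl (fmem_mono ht (fmem_congr_right he (fmem_mono hs hw)))
    · have := fmem_congr_right he (fmem_mono hs hw)
      rw [fmem_mkPair, Fc, forces_or] at this
      refine this.imp ?_
      rintro t _ (h | h) <;> exact Or.inr h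
  · intro h
    refine h.imp ?_
    rintro r _ (h | h)
    · refine ⟨natName n, ?_, h⟩
      exact fmem_mkPair.2 (forces_or.2 (Loc.pure fun _ _ => Or.inl (feq_refl _ _)))
    · refine ⟨mkPair (natName n) (natName n), ?_, ?_⟩
      · exact fmem_mkPair.2 (forces_or.2 (Loc.pure fun _ _ => Or.inr (feq_refl _ _)))
      · exact fmem_mkPair.2 (forces_or.2 (Loc.pure fun s hs => Or.inl (feq_mono hs h)))

variable (P) in
/-- The name of `ω`. -/
def omegaName : Name P := mkAll (ULift ℕ) fun n => natName n.down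

end build

section zfc

variable {P : Type u} [Preorder P] [Nonempty P]

theorem exists_form₁ {D : Set (Ext P)} (hD : @Set.Definable₁ (Ext P) Set.univ LSet
    (setStructure (extE P)) D) :
    ∃ ψ : Name P → Fml (Name P), Congr1 ψ ∧ ∀ t, π t ∈ D ↔ T (ψ t) := by
  let _ := setStructure (extE P)
  obtain ⟨φ, hφ⟩ := Set.definable_iff_exists_formula_sum.1 hD
  choose rep hrep using (π_surj (P := P))
  refine ⟨fun t => toF φ (Sum.elim (fun a => rep a.1) fun _ => t) default, ?_, ?_⟩
  · intro p x y h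
    refine toF_rel (fun x => feq_refl x p) φ ?_ (fun i => i.elim0)
    rintro (a | i)
    · exact feq_refl _ _
    · exact h
  · intro t
    have h1 : π t ∈ D ↔ (fun _ : Fin 1 => π t) ∈ {x : Fin 1 → Ext P | x 0 ∈ D} := Iff.rfl
    rw [h1, hφ]
    have h2 := realize_iff φ (Sum.elim (fun a : (Set.univ : Set (Ext P)) => rep a.1)
      fun _ : Fin 1 => t) default
    rw [← h2]
    have h3 : (Sum.elim (fun a : (Set.univ : Set (Ext P)) => (a : Ext P)) fun _ : Fin 1 => π t) =
        fun a => π ((Sum.elim (fun a : (Set.univ : Set (Ext P)) => rep a.1)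
          fun _ : Fin 1 => t) a) := by
      ext a
      rcases a with a | i
      · simp [hrep]
      · rfl
    change FirstOrder.Language.BoundedFormula.Realize φ _ _ ↔ _
    rw [h3]
    have h4 : (default : Fin 0 → Ext P) = fun i => π ((default : Fin 0 → Name P) i) := by
      ext i; exact i.elim0
    rw [h4]

theorem exists_form₂ {R : Set (Ext P × Ext P)} (hR : @Set.Definable₂ (Ext P) Set.univ LSet
    (setStructure (extE P)) R) :
    ∃ ψ : Name P → Name P → Fml (Name P),
      (∀ p x y x' y', feq x x' p → feq y y' p → Fml.Rel (fun a b => feq a b p) (ψ x y) (ψ x' y')) ∧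
      ∀ t s, (π t, π s) ∈ R ↔ T (ψ t s) := by
  let _ := setStructure (extE P)
  obtain ⟨φ, hφ⟩ := Set.definable_iff_exists_formula_sum.1 hR
  choose rep hrep using (π_surj (P := P))
  refine ⟨fun t s => toF φ (Sum.elim (fun a => rep a.1) ![t, s]) default, ?_, ?_⟩
  · intro p x y x' y' h h'
    refine toF_rel (fun x => feq_refl x p) φ ?_ (fun i => i.elim0)
    rintro (a | i)
    · exact feq_refl _ _
    · fin_cases i
      · exact h
      · exact h'
  · intro t s
    have h1 : (π t, π s) ∈ R ↔ (![π t, π s]) ∈ {x : Fin 2 → Ext P | (x 0, x 1) ∈ R} := by simp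
    rw [h1, hφ]
    have h2 := realize_iff φ (Sum.elim (fun a : (Set.univ : Set (Ext P)) => rep a.1)
      ![t, s]) default
    rw [← h2]
    have h3 : (Sum.elim (fun a : (Set.univ : Set (Ext P)) => (a : Ext P)) ![π t, π s]) =
        fun a => π ((Sum.elim (fun a : (Set.univ : Set (Ext P)) => rep a.1)
          ![t, s]) a) := by
      ext a
      rcases a with a | i
      · simp [hrep]
      · fin_cases i <;> rfl
    change FirstOrder.Language.BoundedFormula.Realize φ _ _ ↔ _
    rw [h3]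
    have h4 : (default : Fin 0 → Ext P) = fun i => π ((default : Fin 0 → Name P) i) := by
      ext i; exact i.elim0
    rw [h4]

/-- `∀ t, T (φ t) → T (ψ t)` from forcing -/
theorem T_imp_of {φ ψ : Fml (Name P)} (h : ∀ p, Fc p φ → Fc p ψ) : T φ → T ψ := fun h' => h'.imp h

omit [Nonempty P] in
theorem fc_foundation {a : Name P} {p : P} (h : Fc p (ex fun y => mem y a)) :
    Fc p (ex fun y => and (mem y a) (all fun z => imp (mem z a) (neg (mem z y)))) := by
  have key : ∀ y : Name P, ∀ q, fmem y a q →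
      ∃ r, r ≤ q ∧ ∃ y, Fc r (and (mem y a) (all fun z => imp (mem z a) (neg (mem z y)))) := by
    intro y
    induction y with
    | mk ι x c ih =>
      intro q hq
      by_cases hex : ∃ r, r ≤ q ∧ ∃ z, fmem z a r ∧ fmem z (.mk ι x c) r
      · obtain ⟨r, hr, z, h1, h2⟩ := hex
        obtain ⟨s, hs, i, _, he⟩ := h2 r le_rfl
        obtain ⟨t, ht, y, hy⟩ := ih i s (fmem_congr_left he (fmem_mono hs h1))
        exact ⟨t, ht.trans (hs.trans hr), y, hy⟩
      · push Not at hex
        refine ⟨q, le_rfl, _, hq, ?_⟩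
        rw [forces_all]
        intro z
        refine (forces_imp nf_basic).2 ?_
        intro r hr hz s hs hz'
        exact hex s (hs.trans hr) z (fmem_mono hs hz) hz'
  refine forces_ex.2 ?_
  refine (forces_ex.1 h).bind ?_
  rintro q _ ⟨y, hy⟩ r hr
  exact key y r (fmem_mono hr hy)

omit [Nonempty P] in
theorem congr_mem_left {a : Name P} : Congr1 (fun y => mem y a) :=
  fun p _ _ h => .mem h (feq_refl a p)

/-- The extension is a model of ZFC. -/
theorem ext_zfc : IsModelOfZFC (extE P) where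
  extensionality := by
    intro x y h
    obtain ⟨a, rfl⟩ := π_surj x
    obtain ⟨b, rfl⟩ := π_surj y
    rw [π_eq]
    have h1 : T (all fun z => Fml.iff (mem z a) (mem z b)) := by
      rw [T_all (fun p x y h => .iff (.mem h (feq_refl a p)) (.mem h (feq_refl b p)))]
      intro z
      rw [T_iff]
      exact h (π z)
    refine h1.imp fun p hp => ?_
    refine feq_ext fun z q hq => ?_
    exact (forces_iff nf_basic).1 (hp z) q hq
  foundation := by
    intro x h
    obtain ⟨a, rfl⟩ := π_surj x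
    obtain ⟨y, hy⟩ := h
    obtain ⟨b, rfl⟩ := π_surj y
    have h1 : T (ex fun y => mem y a) := (T_ex congr_mem_left).2 ⟨b, hy⟩
    have h2 := h1.imp fun p hp => fc_foundation hp
    rw [T_ex (fun p x y h => .and (.mem h (feq_refl a p)) (.all fun z => .imp
      (.mem (feq_refl z p) (feq_refl a p)) (.neg (.mem (feq_refl z p) h))))] at h2
    obtain ⟨y, hy⟩ := h2
    rw [T_and, T_all (fun p x y h => .imp (.mem h (feq_refl a p)) (.neg (.mem h (feq_refl _ p))))]
      at hy
    refine ⟨π y, hy.1, ?_⟩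
    intro z hz
    obtain ⟨t, rfl⟩ := π_surj z
    have := hy.2 t
    rw [T_imp, T_neg] at this
    exact this hz
  pairing := by
    intro x y
    obtain ⟨a, rfl⟩ := π_surj x
    obtain ⟨b, rfl⟩ := π_surj y
    refine ⟨π (mkPair a b), ?_⟩
    intro w
    obtain ⟨w, rfl⟩ := π_surj w
    rw [extE_π, π_eq, π_eq, ← T_or]
    exact T_congr fun p => fmem_mkPair
  union := by
    intro x
    obtain ⟨a, rfl⟩ := π_surj x
    refine ⟨π (mkUnion a), ?_⟩
    intro w
    obtain ⟨w, rfl⟩ := π_surj w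
    rw [extE_π]
    have h1 : T (mem w (mkUnion a)) ↔ T (bex a fun y => mem w y) :=
      T_congr fun p => fmem_mkUnion
    rw [h1, bex, T_ex (fun p x y h => .and (.mem h (feq_refl a p)) (.mem (feq_refl w p) h))]
    constructor
    · rintro ⟨y, hy⟩
      rw [T_and] at hy
      exact ⟨π y, hy⟩
    · rintro ⟨y, hy⟩
      obtain ⟨y, rfl⟩ := π_surj y
      exact ⟨y, T_and.2 hy⟩
  powerset := by
    intro x
    obtain ⟨a, rfl⟩ := π_surj x
    refine ⟨π (mkPow a), ?_⟩
    intro w
    obtain ⟨w, rfl⟩ := π_surj w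
    rw [extE_π]
    have h1 : T (mem w (mkPow a)) ↔ T (isSubset w a) := T_congr fun p => fmem_mkPow
    rw [h1, isSubset, ball, T_all (fun p x y h => .imp (.mem h (feq_refl w p))
      (.mem h (feq_refl a p)))]
    constructor
    · intro h v hv
      obtain ⟨v, rfl⟩ := π_surj v
      exact T_imp.1 (h v) hv
    · intro h v
      exact T_imp.2 (h (π v))
  infinity := by
    refine ⟨π (omegaName P), ⟨π (natName 0), ?_, ?_⟩, ?_⟩
    · exact T_of_forces fun p => fmem_mkAll_of (x := fun n : ULift ℕ => natName n.down) ⟨0⟩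
    · intro z hz
      obtain ⟨z, rfl⟩ := π_surj z
      obtain ⟨p, hp⟩ := (hz : T _).exists
      exact not_fmem_mkEmpty hp
    · intro y hy
      obtain ⟨y, rfl⟩ := π_surj y
      have h1 : T (ex fun s => and (mem s (omegaName P))
          (all fun z => Fml.iff (mem z s) (Fml.or (mem z y) (eq z y)))) := by
        refine (hy : T _).imp fun p hp => ?_
        refine forces_ex.2 ?_
        refine (fmem_mkAll.1 hp).imp ?_
        rintro r _ ⟨⟨n⟩, he⟩
        refine ⟨natName (n + 1), ?_, ?_⟩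
        · exact fmem_mkAll_of (x := fun n : ULift ℕ => natName n.down) ⟨n + 1⟩
        · rw [forces_all]
          intro z
          refine (forces_iff nf_basic).2 fun q hq => ?_
          rw [forces_mem, show (NF P).mem q z (natName (n + 1)) = fmem z _ q from rfl,
            fmem_natName_succ]
          refine fc_congr ?_ le_rfl
          exact .or (.mem (feq_refl _ _) (feq_symm (feq_mono hq he)))
            (.eq (feq_refl _ _) (feq_symm (feq_mono hq he)))
      have hc : Congr1 (fun s : Name P => and (mem s (omegaName P))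
          (all fun z => Fml.iff (mem z s) (Fml.or (mem z y) (eq z y)))) := by
        intro p x x' h
        exact .and (.mem h (feq_refl _ p)) (.all fun z => .iff
          (.mem (feq_refl z p) h) (.or (.mem (feq_refl _ _) (feq_refl _ _))
          (.eq (feq_refl _ _) (feq_refl _ _))))
      obtain ⟨s, hs⟩ := (T_ex hc).1 h1
      have hc' : Congr1 (fun z : Name P => Fml.iff (mem z s) (Fml.or (mem z y) (eq z y))) := by
        intro p x x' h
        exact .iff (.mem h (feq_refl _ _)) (.or (.mem h (feq_refl _ _)) (.eq h (feq_refl _ _)))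
      rw [T_and, T_all hc'] at hs
      refine ⟨π s, hs.1, ?_⟩
      intro z
      obtain ⟨z, rfl⟩ := π_surj z
      have := hs.2 z
      rw [T_iff, T_or] at this
      rw [π_eq]
      exact this
  separation := by
    intro D hD x
    obtain ⟨ψ, hψ, h⟩ := exists_form₁ hD
    obtain ⟨a, rfl⟩ := π_surj x
    refine ⟨π (mkSep a ψ), ?_⟩
    intro w
    obtain ⟨w, rfl⟩ := π_surj w
    rw [extE_π, h w]
    have h1 : T (mem w (mkSep a ψ)) ↔ T (and (mem w a) (ψ w)) :=
      T_congr fun p => fmem_mkSep hψ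
    rw [h1, T_and]
    rfl
  replacement := by
    intro R hR x hx
    classical
    obtain ⟨ψ, hψ, h⟩ := exists_form₂ hR
    obtain ⟨a, rfl⟩ := π_surj x
    obtain ⟨y0⟩ : Nonempty (Name P) := ⟨mkEmpty⟩
    let y : a.idx × P → Name P := fun z =>
      if h : ∃ y, Fc z.2 (ψ (a.elt z.1) y) then h.choose else y0
    have hy : ∀ i p, (∃ y, Fc p (ψ (a.elt i) y)) → Fc p (ψ (a.elt i) (y (i, p))) := by
      intro i p h
      have : y (i, p) = h.choose := dif_pos h
      rw [this]
      exact h.choose_spec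
    let b0 : Name P := mkQ (a.idx × P) y fun z r => r ≤ z.2 ∧ r ≤ a.cnd z.1
    have hb0 : Down (fun (z : a.idx × P) r => r ≤ z.2 ∧ r ≤ a.cnd z.1) :=
      fun _ _ _ hq h => ⟨hq.trans h.1, hq.trans h.2⟩
    have hc : Congr1 fun y => bex a fun x => ψ x y := by
      intro p x x' h
      exact .ex fun z => .and (.mem (feq_refl _ _) (feq_refl _ _)) (hψ p _ _ _ _ (feq_refl _ _) h)
    refine ⟨π (mkSep b0 fun y => bex a fun x => ψ x y), ?_⟩
    intro w
    obtain ⟨w, rfl⟩ := π_surj w
    rw [extE_π]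
    have h1 : T (mem w (mkSep b0 fun y => bex a fun x => ψ x y)) ↔
        T (and (mem w b0) (bex a fun x => ψ x w)) := T_congr fun p => fmem_mkSep hc
    have h2 : T (bex a fun x => ψ x w) ↔ ∃ x, extE P x (π a) ∧ (x, π w) ∈ R := by
      rw [bex, T_ex (fun p x x' h => .and (.mem h (feq_refl _ _))
        (hψ p _ _ _ _ h (feq_refl _ _)))]
      constructor
      · rintro ⟨x, hx⟩
        rw [T_and] at hx
        exact ⟨π x, hx.1, (h x w).2 hx.2⟩
      · rintro ⟨x, h1, h2⟩
        obtain ⟨x, rfl⟩ := π_surj x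
        exact ⟨x, T_and.2 ⟨h1, (h x w).1 h2⟩⟩
    rw [h1, T_and, h2]
    refine ⟨fun h => h.2, fun hw => ⟨?_, hw⟩⟩
    obtain ⟨x, hxa, hxw⟩ := hw
    obtain ⟨x, rfl⟩ := π_surj x
    have hxw' := (h x w).1 hxw
    have h3 : T (ex fun y' => and (mem y' b0) (ψ x y')) := by
      refine (T_and.2 ⟨hxa, hxw'⟩ : T (and (mem x a) (ψ x w))).imp ?_
      rintro p ⟨hp1, hp2⟩
      refine forces_ex.2 ?_
      refine (fmem_iff_loc.1 hp1).imp ?_
      rintro r hr ⟨i, hi, he⟩
      have h4 : Fc r (ψ (a.elt i) w) :=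
        (fc_congr (hψ r _ _ _ _ he (feq_refl w r)) le_rfl).1 (Forces.mono nf_basic hr hp2)
      refine ⟨y (i, r), ?_, ?_⟩
      · exact fmem_mkQ_of (x := y) hb0 (i := (i, r)) ⟨le_rfl, hi⟩
      · exact (fc_congr (hψ r _ _ _ _ he (feq_refl _ r)) le_rfl).2 (hy i r ⟨w, h4⟩)
    rw [T_ex (fun p x x' h => .and (.mem h (feq_refl _ _))
        (hψ p _ _ _ _ (feq_refl _ _) h))] at h3
    obtain ⟨y', hy'⟩ := h3
    rw [T_and] at hy'
    have h5 := (hx (π x) hxa).unique ((h x y').2 hy'.2) hxw
    rw [← extE_π, ← h5]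
    exact hy'.1
  choice := by
    intro x hne hdis
    classical
    obtain ⟨a, rfl⟩ := π_surj x
    have hdis' : T (ball a fun x => ball a fun y =>
        imp (ex fun z => and (mem z x) (mem z y)) (eq x y)) := by
      rw [ball, T_all]
      swap
      · intro p x x' h
        exact .imp (.mem h (feq_refl _ _)) (.all fun y => .imp (.mem (feq_refl _ _) (feq_refl _ _))
          (.imp (.ex fun z => .and (.mem (feq_refl _ _) h) (.mem (feq_refl _ _) (feq_refl _ _)))
            (.eq h (feq_refl _ _))))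
      intro x
      rw [T_imp, ball, T_all]
      swap
      · intro p y y' h
        exact .imp (.mem h (feq_refl _ _))
          (.imp (.ex fun z => .and (.mem (feq_refl _ _) (feq_refl _ _)) (.mem (feq_refl _ _) h))
            (.eq (feq_refl _ _) h))
      intro hx y
      rw [T_imp, T_imp, T_ex]
      swap
      · intro p y y' h
        exact .and (.mem h (feq_refl _ _)) (.mem h (feq_refl _ _))
      rintro hy ⟨z, hz⟩
      rw [T_and] at hz
      exact π_eq.1 (hdis (π x) (π y) hx hy ⟨π z, hz⟩)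
    let J : Type u := Σ i : a.idx, (a.elt i).idx
    let t : J → Name P := fun z => (a.elt z.1).elt z.2
    let Q : J → P → Prop := fun k r => ∃ i : a.idx, r ≤ a.cnd i ∧ fmem (t k) (a.elt i) r ∧
      ∀ k', WellOrderingRel k' k → ∀ s, s ≤ r → ¬ fmem (t k') (a.elt i) s
    have hQ : Down Q := by
      rintro k p q hq ⟨i, h1, h2, h3⟩
      exact ⟨i, hq.trans h1, fmem_mono hq h2, fun k' hk' s hs => h3 k' hk' s (hs.trans hq)⟩
    refine ⟨π (mkQ J t Q), ?_⟩
    intro x hx
    obtain ⟨s, rfl⟩ := π_surj x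
    have hcex : Congr1 fun y => and (mem y s) (mem y (mkQ J t Q)) := by
      intro p x x' h
      exact .and (.mem h (feq_refl _ _)) (.mem h (feq_refl _ _))
    have h1 : T (ex fun y => mem y s) := by
      obtain ⟨y, hy⟩ := hne (π s) hx
      obtain ⟨y, rfl⟩ := π_surj y
      exact (T_ex congr_mem_left).2 ⟨y, hy⟩
    have hex : T (ex fun y => and (mem y s) (mem y (mkQ J t Q))) := by
      refine (T_and.2 ⟨hx, h1⟩ : T (and (mem s a) (ex fun y => mem y s))).imp ?_
      rintro p ⟨hp1, hp2⟩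
      refine forces_ex.2 ?_
      refine (fmem_iff_loc.1 hp1).bind ?_
      rintro q hq ⟨i, hi, he⟩
      have hp3 := Forces.mono nf_basic hq hp2
      refine (forces_ex.1 hp3).bind ?_
      rintro r hr ⟨y, hy⟩ r' hr'
      have hy' : fmem y (a.elt i) r' :=
        fmem_congr_right (feq_mono (hr'.trans hr) he) (fmem_mono hr' hy)
      obtain ⟨r1, hr1, j, hj, hyj⟩ := hy' r' le_rfl
      -- least index
      let S : Set J := {k | ∃ r2, r2 ≤ r' ∧ fmem (t k) (a.elt i) r2}
      have hS : S.Nonempty := ⟨⟨i, j⟩, r1, hr1, fmem_of_idx j hj⟩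
      have hwf : WellFounded (WellOrderingRel (α := J)) := WellOrderingRel.isWellOrder.wf
      obtain ⟨r2, hr2, hk⟩ := hwf.min_mem S hS
      refine ⟨r2, hr2, t (hwf.min S hS), ?_, ?_⟩
      · exact fmem_congr_right (feq_symm (feq_mono (hr2.trans (hr'.trans hr)) he)) hk
      · refine fmem_mkQ_of (x := t) hQ ⟨i, (hr2.trans (hr'.trans hr)).trans hi, hk, ?_⟩
        intro k' hk' s' hs' hm
        exact hwf.not_lt_min S (x := k') ⟨s', hs'.trans hr2, hm⟩ hk'
    obtain ⟨y, hy⟩ := (T_ex hcex).1 hex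
    rw [T_and] at hy
    refine ⟨π y, hy, ?_⟩
    rintro z hz
    obtain ⟨z, rfl⟩ := π_surj z
    rw [π_eq]
    have hall := T_and.2 ⟨hdis', T_and.2 ⟨hx, T_and.2 ⟨T_and.2 hy, T_and.2 hz⟩⟩⟩
    refine hall.imp ?_
    rintro p ⟨hd, hs, ⟨h1, h2⟩, h3, h4⟩
    refine feq_dense ?_
    have hd' : ∀ (r : P) (x y z : Name P), r ≤ p → fmem x a r → fmem y a r → fmem z x r →
        fmem z y r → feq x y r := by
      intro r x y z hr hx hy hzx hzy
      have e1 := (forces_ball nf_basic).1 hd x r hr hx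
      have e2 := (forces_ball nf_basic).1 e1 y r le_rfl hy
      exact (forces_imp nf_basic).1 e2 r le_rfl
        (forces_ex.2 (Loc.pure fun q hq => ⟨z, fmem_mono hq hzx, fmem_mono hq hzy⟩))
    have h2' := (fmem_mkQ hQ).1 h2
    have h4' := (fmem_mkQ hQ).1 h4
    have key : Loc p (fun r => feq z y r) := by
      refine (fmem_iff_loc.1 hs).bind ?_
      rintro q hq ⟨i, hi, he⟩
      refine (h2'.mono hq).bind ?_
      rintro r hr ⟨k, ⟨i1, hi1, hk1, hk2⟩, hyk⟩
      refine (h4'.mono (hr.trans hq)).imp ?_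
      rintro r2 hr2 ⟨l, ⟨i2, hi2, hl1, hl2⟩, hzl⟩
      have hr2p := hr2.trans (hr.trans hq)
      have hsi := feq_mono (hr2.trans hr) he
      have hy_s : fmem (t k) (a.elt i) r2 := fmem_congr_right hsi
        (fmem_congr_left (feq_mono hr2 hyk) (fmem_mono hr2p h1))
      have hz_s : fmem (t l) (a.elt i) r2 := fmem_congr_right hsi
        (fmem_congr_left hzl (fmem_mono hr2p h3))
      have ai : fmem (a.elt i) a r2 := fmem_of_idx i ((hr2.trans hr).trans hi)
      have ai1 : fmem (a.elt i1) a r2 := fmem_of_idx i1 (hr2.trans hi1)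
      have ai2 : fmem (a.elt i2) a r2 := fmem_of_idx i2 hi2
      have e1 := hd' r2 _ _ _ hr2p ai ai1 hy_s (fmem_mono hr2 hk1)
      have e2 := hd' r2 _ _ _ hr2p ai ai2 hz_s hl1
      have hkl : k = l := by
        rcases trichotomous_of WellOrderingRel k l with h | h | h
        · exact (hl2 k h r2 le_rfl (fmem_congr_right e2 hy_s)).elim
        · exact h
        · exact (hk2 l h r2 hr2 (fmem_congr_right e1 hz_s)).elim
      subst hkl
      exact feq_trans hzl (feq_symm (feq_mono hr2 hyk))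
    exact key

end zfc

end Pool.Agent.Lib_helper27.V
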